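import Mathlib

/-!
# Lifts of inertia automorphisms
-/

set_option autoImplicit false

open Finset Module NumberField Pointwise

namespace Pool.Agent.Run7.h816.IN

variable {K : Type} [Field K] [NumberField K] {E : Type} [Field E] [NumberField E] [Algebra E K]

/-- the norm of the extension of an ideal -/
lemma log_absNorm_map {J : Ideal (𝓞 E)} :
    Real.log (Ideal.absNorm (J.map (algebraMap (𝓞 E) (𝓞 K)))) =
      finrank E K * Real.log (Ideal.absNorm J) := by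
  rw [Ideal.absNorm_algebraMap]
  push_cast
  rw [Real.log_pow]
  congr 2
  exact (IsFractionRing.finrank_eq (𝓞 E) E (𝓞 K) K).symm

/-- **Lifts of inertia automorphisms**: an automorphism of `E` which is trivial modulo a prime of `K`
extends to an automorphism of the Galois field `K` which is trivial modulo this prime. -/
lemma lift_inertia [IsGalois ℚ K] (τ : E ≃ₐ[ℚ] E) {𝔓 : Ideal (𝓞 K)} (h1 : 𝔓.IsPrime) (h0 : 𝔓 ≠ ⊥)
    (hτ : ∀ x : 𝓞 E, algebraMap (𝓞 E) (𝓞 K) (τ • x - x) ∈ 𝔓) :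
    ∃ σ : K ≃ₐ[ℚ] K, (∀ y : E, σ (algebraMap E K y) = algebraMap E K (τ y)) ∧
      ∀ x : 𝓞 K, σ • x - x ∈ 𝔓 := by
  have hG : IsGalois E K := IsGalois.tower_top_of_isGalois ℚ E K
  have hfd : FiniteDimensional E K := Module.Finite.of_restrictScalars_finite ℚ E K
  have hinv : Algebra.IsInvariant (𝓞 E) (𝓞 K) (K ≃ₐ[E] K) := inferInstance
  have hcomm : SMulCommClass (K ≃ₐ[E] K) (𝓞 E) (𝓞 K) := inferInstance
  set σ₀ : K ≃ₐ[ℚ] K := τ.liftNormal K with hσ₀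
  have hσ₀E : ∀ y : E, σ₀ (algebraMap E K y) = algebraMap E K (τ y) := fun y =>
    AlgEquiv.liftNormal_commutes τ K y
  have hσ₀O : ∀ y : 𝓞 E, σ₀ • (algebraMap (𝓞 E) (𝓞 K) y) = algebraMap (𝓞 E) (𝓞 K) (τ • y) := by
    intro y
    apply RingOfIntegers.coe_injective
    exact hσ₀E y
  -- transitivity
  set 𝔓' : Ideal (𝓞 K) := 𝔓.comap (MulSemiringAction.toRingHom (K ≃ₐ[ℚ] K) (𝓞 K) σ₀) with h𝔓'
  have hmem' : ∀ x : 𝓞 K, x ∈ 𝔓' ↔ σ₀ • x ∈ 𝔓 := fun x => Iff.rfl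
  have hpr' : 𝔓'.IsPrime := Ideal.comap_isPrime _ _
  have hunder : 𝔓'.under (𝓞 E) = 𝔓.under (𝓞 E) := by
    ext y
    show σ₀ • (algebraMap (𝓞 E) (𝓞 K) y) ∈ 𝔓 ↔ algebraMap (𝓞 E) (𝓞 K) y ∈ 𝔓
    rw [hσ₀O]
    have h2 := hτ y
    rw [map_sub] at h2
    constructor
    · intro h3
      have h4 := Ideal.sub_mem _ h3 h2
      rwa [sub_sub_cancel] at h4
    · intro h3
      have h4 := Ideal.add_mem _ h2 h3
      rwa [sub_add_cancel] at h4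
  obtain ⟨h, hh⟩ := Algebra.IsInvariant.exists_smul_of_under_eq (𝓞 E) (𝓞 K) (K ≃ₐ[E] K) 𝔓' 𝔓 hunder
  -- the automorphism which preserves the prime
  have hhE : ∀ (g : K ≃ₐ[E] K) (x : 𝓞 K), (g.restrictScalars ℚ : K ≃ₐ[ℚ] K) • x = g • x := by
    intro g x
    rfl
  set σ₁ : K ≃ₐ[ℚ] K := σ₀ * (h⁻¹).restrictScalars ℚ with hσ₁
  have hσ₁𝔓 : ∀ x : 𝓞 K, σ₁ • x ∈ 𝔓 ↔ x ∈ 𝔓 := by
    intro x
    rw [hσ₁, mul_smul, ← hmem', hhE]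
    conv_rhs => rw [hh]
    exact Ideal.mem_pointwise_smul_iff_inv_smul_mem.symm
  have hσ₁E : ∀ y : E, σ₁ (algebraMap E K y) = algebraMap E K (τ y) := by
    intro y
    rw [hσ₁, AlgEquiv.mul_apply]
    have h2 : ((h⁻¹).restrictScalars ℚ : K ≃ₐ[ℚ] K) (algebraMap E K y) = algebraMap E K y :=
      (h⁻¹).commutes y
    rw [h2, hσ₀E]
  -- the action on the residue field
  set φ : 𝓞 K →+* 𝓞 K := MulSemiringAction.toRingHom (K ≃ₐ[ℚ] K) (𝓞 K) σ₁ with hφ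
  have hφ𝔓 : 𝔓.comap φ = 𝔓 := by
    ext x
    exact hσ₁𝔓 x
  have hmax : 𝔓.IsMaximal := h1.isMaximal h0
  let _ : Field (𝓞 K ⧸ 𝔓) := Ideal.Quotient.field 𝔓
  have hfin : Finite (𝓞 K ⧸ 𝔓) := Ideal.finiteQuotientOfFreeOfNeBot 𝔓 h0
  set ψ : (𝓞 K ⧸ 𝔓) →+* (𝓞 K ⧸ 𝔓) := Ideal.quotientMap 𝔓 φ hφ𝔓.ge with hψ
  have hψb : Function.Bijective ψ := Finite.injective_iff_bijective.mp ψ.injective
  set q := 𝔓.under (𝓞 E) with hq
  have hlies : 𝔓.LiesOver q := ⟨hq⟩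
  set ψ' : (𝓞 K ⧸ 𝔓) ≃ₐ[𝓞 E ⧸ q] (𝓞 K ⧸ 𝔓) := AlgEquiv.ofRingEquiv (f := RingEquiv.ofBijective ψ hψb) (by
    intro z
    obtain ⟨y, rfl⟩ := Ideal.Quotient.mk_surjective z
    show ψ (Ideal.Quotient.mk 𝔓 (algebraMap (𝓞 E) (𝓞 K) y)) = Ideal.Quotient.mk 𝔓 (algebraMap (𝓞 E) (𝓞 K) y)
    rw [hψ, Ideal.quotientMap_mk]
    have h2 : φ (algebraMap (𝓞 E) (𝓞 K) y) = algebraMap (𝓞 E) (𝓞 K) (τ • y) := by
      apply RingOfIntegers.coe_injective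
      exact hσ₁E y
    rw [h2]
    apply Ideal.Quotient.eq.mpr
    rw [← map_sub]
    exact hτ y) with hψ'
  obtain ⟨g, hg⟩ := Ideal.Quotient.stabilizerHom_surjective (K ≃ₐ[E] K) q 𝔓 ψ'
  refine ⟨((g : K ≃ₐ[E] K)⁻¹).restrictScalars ℚ * σ₁, ?_, ?_⟩
  · intro y
    rw [AlgEquiv.mul_apply, hσ₁E]
    exact ((g : K ≃ₐ[E] K)⁻¹).commutes _
  · intro x
    have h2 : Ideal.Quotient.mk 𝔓 ((g : K ≃ₐ[E] K) • x) = Ideal.Quotient.mk 𝔓 (σ₁ • x) := by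
      have h3 := congrArg (fun f => f (Ideal.Quotient.mk 𝔓 x)) hg
      exact h3
    have h4 : (g : K ≃ₐ[E] K) • x - σ₁ • x ∈ 𝔓 := Ideal.Quotient.eq.mp h2
    rw [mul_smul, hhE]
    have hstab : ∀ z : 𝓞 K, (g : K ≃ₐ[E] K) • z ∈ 𝔓 ↔ z ∈ 𝔓 := by
      intro z
      have hgs : (g : K ≃ₐ[E] K) • 𝔓 = 𝔓 := g.2
      have h5 := Ideal.smul_mem_pointwise_smul_iff (a := (g : K ≃ₐ[E] K)) (S := 𝔓) (x := z)
      rwa [hgs] at h5
    rw [← hstab, smul_sub, smul_inv_smul, ← neg_sub]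
    exact neg_mem h4

end Pool.Agent.Run7.h816.IN
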