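import Mathlib
import Pool.Agent.Run7.h816.MG.Ram4
import Pool.Agent.Run7.h816.MG.Ram6
import Pool.Agent.Run7.h816.IN.In0

/-!
# Ideals of an extension above a product of distinct primes, and lifts of inertia automorphisms
-/

set_option autoImplicit false

open Finset Module NumberField

namespace Pool.Agent.Run7.h816.IN

open Pool.Agent.H388SL Pool.Agent.Run7.h22 Pool.Agent.Run7.h816.MG

variable {K : Type} [Field K] [NumberField K]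

open Classical in
/-- the exponent of an ideal in the factorization of `I` -/
noncomputable def multI (I 𝔓 : Ideal (𝓞 K)) : ℕ :=
  (UniqueFactorizationMonoid.normalizedFactors I).count 𝔓

lemma le_pow_multI {I : Ideal (𝓞 K)} (hI0 : I ≠ ⊥) (𝔓 : Ideal (𝓞 K)) : I ≤ 𝔓 ^ multI I 𝔓 := by
  classical
  have h1 : 𝔓 ^ multI I 𝔓 ∣ I := by
    conv_rhs => rw [← Ideal.prod_normalizedFactors_eq_self hI0]
    have h3 : Multiset.replicate (multI I 𝔓) 𝔓 ≤ UniqueFactorizationMonoid.normalizedFactors I := by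
      rw [← Multiset.le_count_iff_replicate_le]
      unfold multI
      exact le_of_eq (by congr!)
    have h4 := Multiset.prod_dvd_prod_of_le h3
    rwa [Multiset.prod_replicate] at h4
  exact Ideal.dvd_iff_le.mp h1

/-- the primes which divide `I` on which a function has a certain value contain together a proportion
of at least `1 / M` of the norm of `I`, if there are at most `M` values -/
lemma exists_classI {I : Ideal (𝓞 K)} (hI0 : I ≠ ⊥) (hI1 : 0 < Real.log (Ideal.absNorm I))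
    {Y : Type*} (f : Ideal (𝓞 K) → Y) (V : Finset Y) {M : ℕ}
    (hM : V.card ≤ M) (hf : ∀ 𝔓 : Ideal (𝓞 K), 𝔓.IsPrime → I ≤ 𝔓 → f 𝔓 ∈ V) :
    ∃ (y : Y) (Φ : Finset (Ideal (𝓞 K))), Φ.Nonempty ∧
      (∀ 𝔓 ∈ Φ, 𝔓.IsPrime ∧ I ≤ 𝔓 ∧ 𝔓 ≠ ⊥ ∧ f 𝔓 = y) ∧
      Real.log (Ideal.absNorm I) ≤
        M * ∑ 𝔓 ∈ Φ, (multI I 𝔓 : ℝ) * Real.log (Ideal.absNorm 𝔓) := by
  classical
  set F := (UniqueFactorizationMonoid.normalizedFactors I) with hF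
  have hFprime : ∀ 𝔓 ∈ F, 𝔓.IsPrime ∧ I ≤ 𝔓 ∧ 𝔓 ≠ ⊥ := by
    intro 𝔓 h
    have h1 := UniqueFactorizationMonoid.prime_of_normalized_factor 𝔓 h
    have h2 := UniqueFactorizationMonoid.dvd_of_mem_normalizedFactors h
    exact ⟨Ideal.isPrime_of_prime h1, Ideal.dvd_iff_le.mp h2, h1.ne_zero⟩
  have hprod : F.prod = I := by
    rw [hF]
    exact Ideal.prod_normalizedFactors_eq_self hI0
  have hmult : ∀ 𝔓, multI I 𝔓 = F.count 𝔓 := by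
    intro 𝔓
    unfold multI
    congr!
  set T : Finset (Ideal (𝓞 K)) := F.toFinset with hT
  have hnorm : ∑ 𝔓 ∈ T, (multI I 𝔓 : ℝ) * Real.log (Ideal.absNorm 𝔓) =
      Real.log (Ideal.absNorm I) := by
    rw [← hprod]
    have h3 : ∀ s : Multiset (Ideal (𝓞 K)), (∀ 𝔓 ∈ s, 𝔓 ≠ ⊥) →
        (s.map (fun 𝔓 => Real.log (Ideal.absNorm 𝔓))).sum = Real.log (Ideal.absNorm s.prod) := by
      intro s
      induction s using Multiset.induction_on with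
      | empty => intro _; simp
      | cons a s ih =>
        intro h
        rw [Multiset.map_cons, Multiset.sum_cons, Multiset.prod_cons, map_mul,
          ih fun 𝔓 h𝔓 => h 𝔓 (Multiset.mem_cons_of_mem h𝔓)]
        push_cast
        rw [Real.log_mul]
        · have := h a (Multiset.mem_cons_self a s)
          exact_mod_cast (Ideal.absNorm_eq_zero_iff.not.mpr this)
        · have : s.prod ≠ 0 := by
            rw [Ne, Multiset.prod_eq_zero_iff]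
            intro h0
            exact h 0 (Multiset.mem_cons_of_mem h0) rfl
          exact_mod_cast (Ideal.absNorm_eq_zero_iff.not.mpr this)
    rw [← h3 F fun 𝔓 h => (hFprime 𝔓 h).2.2, Finset.sum_multiset_map_count]
    refine Finset.sum_congr rfl fun 𝔓 _ => ?_
    rw [hprod, hmult, nsmul_eq_mul]
  have hmemT : ∀ 𝔓 ∈ T, 𝔓.IsPrime ∧ I ≤ 𝔓 ∧ 𝔓 ≠ ⊥ := fun 𝔓 h =>
    hFprime 𝔓 (Multiset.mem_toFinset.mp h)
  have hmaps : ∀ 𝔓 ∈ T, f 𝔓 ∈ V := fun 𝔓 h => hf 𝔓 (hmemT 𝔓 h).1 (hmemT 𝔓 h).2.1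
  have hsum2 : ∑ y ∈ V, ∑ 𝔓 ∈ T.filter (fun 𝔓 => f 𝔓 = y), (multI I 𝔓 : ℝ) * Real.log (Ideal.absNorm 𝔓) =
      Real.log (Ideal.absNorm I) := by
    rw [Finset.sum_fiberwise_of_maps_to hmaps, hnorm]
  have hVne : V.Nonempty := by
    by_contra h
    rw [Finset.not_nonempty_iff_eq_empty] at h
    rw [h, Finset.sum_empty] at hsum2
    linarith
  obtain ⟨y, hyV, hy⟩ := Finset.exists_le_of_sum_le hVne
    (f := fun _ => Real.log (Ideal.absNorm I) / V.card)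
    (g := fun y => ∑ 𝔓 ∈ T.filter (fun 𝔓 => f 𝔓 = y), (multI I 𝔓 : ℝ) * Real.log (Ideal.absNorm 𝔓)) (by
      rw [hsum2, Finset.sum_const, nsmul_eq_mul]
      apply le_of_eq
      have : (V.card : ℝ) ≠ 0 := by exact_mod_cast hVne.card_pos.ne'
      field_simp)
  have hVpos : (0:ℝ) < V.card := by exact_mod_cast hVne.card_pos
  have hsum0 : 0 ≤ ∑ 𝔓 ∈ T.filter (fun 𝔓 => f 𝔓 = y), (multI I 𝔓 : ℝ) * Real.log (Ideal.absNorm 𝔓) :=
    Finset.sum_nonneg fun 𝔓 _ => mul_nonneg (Nat.cast_nonneg _) (Real.log_natCast_nonneg _)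
  have hfinal : Real.log (Ideal.absNorm I) ≤
      M * ∑ 𝔓 ∈ T.filter (fun 𝔓 => f 𝔓 = y), (multI I 𝔓 : ℝ) * Real.log (Ideal.absNorm 𝔓) := by
    have h1 : Real.log (Ideal.absNorm I) / V.card ≤
      ∑ 𝔓 ∈ T.filter (fun 𝔓 => f 𝔓 = y), (multI I 𝔓 : ℝ) * Real.log (Ideal.absNorm 𝔓) := hy
    rw [div_le_iff₀ hVpos] at h1
    have h2 : (V.card : ℝ) ≤ M := by exact_mod_cast hM
    have h3 := mul_le_mul_of_nonneg_right h2 hsum0
    linarith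
  have hne : (T.filter (fun 𝔓 => f 𝔓 = y)).Nonempty := by
    by_contra h
    rw [Finset.not_nonempty_iff_eq_empty] at h
    rw [h, Finset.sum_empty, mul_zero] at hfinal
    linarith
  refine ⟨y, T.filter (fun 𝔓 => f 𝔓 = y), hne, ?_, hfinal⟩
  intro 𝔓 h
  obtain ⟨h1, h2⟩ := Finset.mem_filter.mp h
  exact ⟨(hmemT 𝔓 h1).1, (hmemT 𝔓 h1).2.1, (hmemT 𝔓 h1).2.2, h2⟩

section ext

variable {E : Type} [Field E] [NumberField E] [Algebra E K]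

/-- an integer of `E` which is in a prime of `K` above a simple prime factor of `J` is in the power of
the prime in the factorization of the extension of `J` -/
lemma mem_pow_of_sqfree {J : Ideal (𝓞 E)} (hJ0 : J ≠ ⊥) (hJ : Squarefree J)
    {𝔓 : Ideal (𝓞 K)} (h1 : 𝔓.IsPrime) (h2 : J.map (algebraMap (𝓞 E) (𝓞 K)) ≤ 𝔓) {y : 𝓞 E}
    (hy : algebraMap (𝓞 E) (𝓞 K) y ∈ 𝔓) :
    algebraMap (𝓞 E) (𝓞 K) y ∈ 𝔓 ^ multI (J.map (algebraMap (𝓞 E) (𝓞 K))) 𝔓 := by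
  set 𝔮 : Ideal (𝓞 E) := 𝔓.comap (algebraMap (𝓞 E) (𝓞 K)) with h𝔮
  have hq : 𝔮.IsPrime := Ideal.comap_isPrime _ _
  have hJq : J ≤ 𝔮 := Ideal.map_le_iff_le_comap.mp h2
  have hinj : Function.Injective (algebraMap (𝓞 E) (𝓞 K)) :=
    FaithfulSMul.algebraMap_injective (𝓞 E) (𝓞 K)
  have hJm0 : J.map (algebraMap (𝓞 E) (𝓞 K)) ≠ ⊥ := by
    rw [Ne, Ideal.map_eq_bot_iff_of_injective hinj]
    exact hJ0
  obtain ⟨𝔟, h𝔟⟩ : 𝔮 ∣ J := Ideal.dvd_iff_le.mpr hJq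
  have hn : ¬ 𝔟 ≤ 𝔮 := by
    intro hcon
    obtain ⟨𝔠, h𝔠⟩ : 𝔮 ∣ 𝔟 := Ideal.dvd_iff_le.mpr hcon
    have h3 : 𝔮 * 𝔮 ∣ J := ⟨𝔠, by rw [h𝔟, h𝔠, mul_assoc]⟩
    have h4 := hJ 𝔮 h3
    exact hq.ne_top (Ideal.isUnit_iff.mp h4)
  obtain ⟨b, hb, hb𝔮⟩ : ∃ b ∈ 𝔟, b ∉ 𝔮 := by
    by_contra hcon
    push Not at hcon
    exact hn hcon
  have hy𝔮 : y ∈ 𝔮 := hy
  have hyb : y * b ∈ J := by
    rw [h𝔟]
    exact Ideal.mul_mem_mul hy𝔮 hb
  have h3 : algebraMap (𝓞 E) (𝓞 K) b * algebraMap (𝓞 E) (𝓞 K) y ∈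
      𝔓 ^ multI (J.map (algebraMap (𝓞 E) (𝓞 K))) 𝔓 := by
    rw [← map_mul, mul_comm]
    exact le_pow_multI hJm0 𝔓 (Ideal.mem_map_of_mem _ hyb)
  rcases Ideal.IsPrime.mul_mem_pow 𝔓 h3 with h4 | h4
  · exact absurd h4 hb𝔮
  · exact h4

/-- a nonzero integer with few conjugates over `E` in many primes has a large norm -/
lemma norm_lowerI {J : Ideal (𝓞 E)} (hJ0 : J ≠ ⊥) (hJ : Squarefree J)
    (N : Subgroup (K ≃ₐ[ℚ] K)) (hNE : ∀ x : K, (∀ τ ∈ N, τ x = x) → ∃ y : E, algebraMap E K y = x)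
    {Φ : Finset (Ideal (𝓞 K))}
    (hΦ : ∀ 𝔓 ∈ Φ, 𝔓.IsPrime ∧ J.map (algebraMap (𝓞 E) (𝓞 K)) ≤ 𝔓 ∧ 𝔓 ≠ ⊥)
    {C₁ : ℕ} {x : 𝓞 K} (hx0 : x ≠ 0) (hxm : ∀ 𝔓 ∈ Φ, x ∈ 𝔓)
    (hC : (orbN N (algebraMap (𝓞 K) K x)).ncard ≤ C₁) :
    ∑ 𝔓 ∈ Φ, (multI (J.map (algebraMap (𝓞 E) (𝓞 K))) 𝔓 : ℝ) * Real.log (Ideal.absNorm 𝔓) ≤
      (C₁ : ℝ) * ∑ φ : K →ₐ[ℚ] ℂ, Real.log ‖φ (algebraMap (𝓞 K) K x)‖ := by
  classical
  set x' : K := algebraMap (𝓞 K) K x with hx'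
  have hx'0 : x' ≠ 0 := by
    intro h0
    exact hx0 (RingOfIntegers.coe_injective (by rw [← hx', h0, map_zero]))
  set Y : Finset K := (orbN_finite N x').toFinset with hY
  have hYcard : Y.card ≤ C₁ := by
    rwa [hY, ← Set.ncard_eq_toFinset_card _ (orbN_finite N x')]
  have hYmem : ∀ z, z ∈ Y ↔ ∃ τ ∈ N, τ x' = z := by
    intro z
    rw [hY, Set.Finite.mem_toFinset]
    exact Iff.rfl
  have hxY : x' ∈ Y := (hYmem x').mpr ⟨1, N.one_mem, rfl⟩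
  have hYint : ∀ z ∈ Y, IsIntegral ℤ z := by
    intro z hz
    obtain ⟨τ, -, rfl⟩ := (hYmem z).mp hz
    exact (RingOfIntegers.isIntegral_coe x).map (τ : K →ₐ[ℚ] K)
  have hY0 : ∀ z ∈ Y, z ≠ 0 := by
    intro z hz
    obtain ⟨τ, -, rfl⟩ := (hYmem z).mp hz
    exact (map_ne_zero τ).mpr hx'0
  set y : K := ∏ z ∈ Y, z with hy
  -- invariance
  have hfix : ∀ τ ∈ N, τ y = y := by
    intro τ hτ
    rw [hy, map_prod]
    refine Finset.prod_bij (fun z _ => τ z) ?_ ?_ ?_ ?_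
    · intro z hz
      obtain ⟨τ', hτ', rfl⟩ := (hYmem z).mp hz
      exact (hYmem _).mpr ⟨τ * τ', N.mul_mem hτ hτ', rfl⟩
    · intro z _ z' _ h
      exact τ.injective h
    · intro z hz
      obtain ⟨τ', hτ', rfl⟩ := (hYmem z).mp hz
      refine ⟨(τ⁻¹ * τ') x', (hYmem _).mpr ⟨τ⁻¹ * τ', N.mul_mem (N.inv_mem hτ) hτ', rfl⟩, ?_⟩
      rw [← AlgEquiv.mul_apply, mul_inv_cancel_left]
    · intro z _
      rfl
  obtain ⟨w, hw⟩ := hNE y hfix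
  have hyint : IsIntegral ℤ y := by
    rw [hy]
    exact IsIntegral.prod _ hYint
  have hwint : IsIntegral ℤ w := by
    rw [← hw] at hyint
    exact (isIntegral_algebraMap_iff (algebraMap E K).injective).mp hyint
  set w' : 𝓞 E := ⟨w, hwint⟩ with hw'
  set y' : 𝓞 K := algebraMap (𝓞 E) (𝓞 K) w' with hy'
  have hy'y : algebraMap (𝓞 K) K y' = y := by
    rw [← hw]
    rfl
  -- divisibility
  have hrint : IsIntegral ℤ (∏ z ∈ Y.erase x', z) :=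
    IsIntegral.prod _ fun z hz => hYint z (Finset.mem_of_mem_erase hz)
  have hyr : y' = x * ⟨_, hrint⟩ := by
    apply RingOfIntegers.coe_injective
    rw [map_mul, hy'y, hy, ← Finset.mul_prod_erase Y (fun z => z) hxY]
    rfl
  have hmem : ∀ 𝔓 ∈ Φ, y' ∈ 𝔓 ^ multI (J.map (algebraMap (𝓞 E) (𝓞 K))) 𝔓 := by
    intro 𝔓 h𝔓
    have h1 : y' ∈ 𝔓 := by
      rw [hyr]
      exact Ideal.mul_mem_right _ _ (hxm 𝔓 h𝔓)
    exact mem_pow_of_sqfree hJ0 hJ (hΦ 𝔓 h𝔓).1 (hΦ 𝔓 h𝔓).2.1 h1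
  have hy0 : y ≠ 0 := Finset.prod_ne_zero_iff.mpr hY0
  have hy'0 : y' ≠ 0 := by
    intro h0
    apply hy0
    rw [← hy'y, h0, map_zero]
  have h1 := log_norm_ge' (fun 𝔓 h => (hΦ 𝔓 h).2.2) (fun 𝔓 h => (hΦ 𝔓 h).1)
    (multI (J.map (algebraMap (𝓞 E) (𝓞 K)))) hy'0 hmem
  refine h1.trans ?_
  -- the norm of the product
  have hone : ∀ z ∈ Y, ∑ φ : K →ₐ[ℚ] ℂ, Real.log ‖φ z‖ = ∑ φ : K →ₐ[ℚ] ℂ, Real.log ‖φ x'‖ := by
    intro z hz
    obtain ⟨τ, -, rfl⟩ := (hYmem z).mp hz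
    let e : (K →ₐ[ℚ] ℂ) → (K →ₐ[ℚ] ℂ) := fun σ => σ.comp (τ : K →ₐ[ℚ] K)
    have he : Function.Injective e := by
      intro σ τ' h
      apply AlgHom.ext
      intro y
      have h1 := AlgHom.congr_fun h (τ.symm y)
      have h2 : σ (τ (τ.symm y)) = τ' (τ (τ.symm y)) := h1
      rwa [AlgEquiv.apply_symm_apply] at h2
    have hb : Function.Bijective e := Finite.injective_iff_bijective.mp he
    exact hb.sum_comp (fun σ : K →ₐ[ℚ] ℂ => Real.log ‖σ x'‖)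
  have hprod : ∑ φ : K →ₐ[ℚ] ℂ, Real.log ‖φ (algebraMap (𝓞 K) K y')‖ =
      Y.card * ∑ φ : K →ₐ[ℚ] ℂ, Real.log ‖φ x'‖ := by
    rw [hy'y, hy]
    have h2 : ∀ φ : K →ₐ[ℚ] ℂ, Real.log ‖φ (∏ z ∈ Y, z)‖ = ∑ z ∈ Y, Real.log ‖φ z‖ := by
      intro φ
      rw [map_prod, norm_prod, Real.log_prod fun z hz => norm_ne_zero_iff.mpr ((map_ne_zero φ).mpr (hY0 z hz))]
    rw [Finset.sum_congr rfl fun φ _ => h2 φ, Finset.sum_comm, Finset.sum_congr rfl hone,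
      Finset.sum_const, nsmul_eq_mul]
  rw [hprod]
  have hpos : 0 ≤ ∑ φ : K →ₐ[ℚ] ℂ, Real.log ‖φ x'‖ := by
    have h2 := log_norm_ge' (Φ := (∅ : Finset (Ideal (𝓞 K)))) (by simp) (by simp) (fun _ => 0) hx0 (by simp)
    rwa [Finset.sum_empty] at h2
  apply mul_le_mul_of_nonneg_right _ hpos
  exact_mod_cast hYcard

end ext

end Pool.Agent.Run7.h816.IN
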