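import Mathlib
import Pool.Agent.Run7.h816.IN.In1

/-!
# Units and the congruence ideal of an automorphism
-/

set_option autoImplicit false

open Finset Module NumberField

namespace Pool.Agent.Run7.h816.IN

open Pool.Agent.H388SL Pool.Agent.Run7.h22 Pool.Agent.Run7.h816.MG

variable {K : Type} [Field K] [NumberField K] {E : Type} [Field E] [NumberField E] [Algebra E K]

/-- the automorphism `σ` of `K` extends the automorphism `τ` of `E` -/
def Ext (τ : E ≃ₐ[ℚ] E) (σ : K ≃ₐ[ℚ] K) : Prop :=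
  ∀ y : E, σ (algebraMap E K y) = algebraMap E K (τ y)

lemma Ext.conj {τ : E ≃ₐ[ℚ] E} {σ n : K ≃ₐ[ℚ] K} (h : Ext τ σ) (hn : n ∈ fixE K E) :
    σ⁻¹ * n * σ ∈ fixE K E := by
  intro y
  apply σ.injective
  rw [← AlgEquiv.mul_apply, mul_assoc, mul_inv_cancel_left, AlgEquiv.mul_apply, h y]
  exact hn _

lemma Ext.coset {τ : E ≃ₐ[ℚ] E} {σ σ' : K ≃ₐ[ℚ] K} (h : Ext τ σ) (h' : Ext τ σ') :
    σ⁻¹ * σ' ∈ fixE K E := by
  intro y
  apply σ.injective
  rw [← AlgEquiv.mul_apply, mul_inv_cancel_left, h y, h' y]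

lemma orb_ext {τ : E ≃ₐ[ℚ] E} {σ : K ≃ₐ[ℚ] K} (h : Ext τ σ) (x : K) :
    (orbN (fixE K E) (σ x)).ncard ≤ (orbN (fixE K E) x).ncard := by
  have h1 : orbN (fixE K E) (σ x) ⊆ σ '' orbN (fixE K E) x := by
    rintro _ ⟨n, hn, rfl⟩
    refine ⟨(σ⁻¹ * n * σ) x, ⟨σ⁻¹ * n * σ, h.conj hn, rfl⟩, ?_⟩
    rw [← AlgEquiv.mul_apply]
    show (σ * (σ⁻¹ * n * σ)) x = n (σ x)
    rw [← AlgEquiv.mul_apply]
    congr 1
    group
  calc (orbN (fixE K E) (σ x)).ncard ≤ (σ '' orbN (fixE K E) x).ncard :=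
        Set.ncard_le_ncard h1 ((orbN_finite _ x).image σ)
    _ ≤ (orbN (fixE K E) x).ncard := Set.ncard_image_le (orbN_finite _ x)

/-- **Units and the congruence ideal of an automorphism.** The automorphism `τ` of `E` is trivial
modulo the product `J` of distinct primes, and there are `r` multiplicatively independent quotients of
units, of degree at most `D` over `E`, by their images under the extensions of `τ`. -/
theorem core [IsGalois ℚ K] (τ : E ≃ₐ[ℚ] E) {J : Ideal (𝓞 E)} (hJ0 : J ≠ ⊥) (hJ : Squarefree J)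
    (hτ : ∀ x : 𝓞 E, τ • x - x ∈ J) {L : ℝ} (hL : 1 ≤ L)
    (hLJ : (finrank ℚ E : ℝ) * Real.log 2 ≤ L * Real.log (Ideal.absNorm J))
    {m r T D : ℕ} (A : Fin m → K) (hA : ∀ j, IsU (A j)) {Λ : ℝ} (hΛ : ∀ j, lam (A j) ≤ Λ)
    (hD1 : 1 ≤ D) (hD : ∀ j, (orbN (fixE K E) (A j)).ncard ≤ D)
    (hind : ∀ σ : K ≃ₐ[ℚ] K, Ext τ σ → ∃ ι : Fin r → Fin m,
      LinearIndependent ℤ fun j => lg (A (ι j)) - act σ (lg (A (ι j))))
    {M : ℝ} (hM : M = L * ((D : ℝ) ^ (m + 2 * r))) (hT : 256 * M ^ 2 ≤ (T : ℝ) ^ r) :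
    (finrank ℚ K : ℝ) ≤ 16 * M * (r * T * (2 * Λ)) := by
  classical
  have hfd : FiniteDimensional E K := Module.Finite.of_restrictScalars_finite ℚ E K
  set I : Ideal (𝓞 K) := J.map (algebraMap (𝓞 E) (𝓞 K)) with hI
  have hinj : Function.Injective (algebraMap (𝓞 E) (𝓞 K)) :=
    FaithfulSMul.algebraMap_injective (𝓞 E) (𝓞 K)
  have hI0 : I ≠ ⊥ := by
    rw [hI, Ne, Ideal.map_eq_bot_iff_of_injective hinj]
    exact hJ0
  have hIlog : Real.log (Ideal.absNorm I) = finrank E K * Real.log (Ideal.absNorm J) :=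
    log_absNorm_map
  have hE0 : (0:ℝ) < finrank ℚ E := by exact_mod_cast (finrank_pos : 0 < finrank ℚ E)
  have hEK0 : (0:ℝ) < finrank E K := by exact_mod_cast (finrank_pos : 0 < finrank E K)
  have hl2 : 0 < Real.log 2 := Real.log_pos (by norm_num)
  have hJlog : 0 < Real.log (Ideal.absNorm J) := by
    have h1 : 0 < (finrank ℚ E : ℝ) * Real.log 2 := by positivity
    by_contra hcon
    push Not at hcon
    nlinarith
  have hI1 : 0 < Real.log (Ideal.absNorm I) := by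
    rw [hIlog]
    positivity
  -- the extensions of the automorphism
  set S : Set (K ≃ₐ[ℚ] K) := {σ | Ext τ σ} with hS
  have hex : ∀ 𝔓 : Ideal (𝓞 K), ∃ σ : K ≃ₐ[ℚ] K, 𝔓.IsPrime → I ≤ 𝔓 →
      Ext τ σ ∧ ∀ x : 𝓞 K, σ • x - x ∈ 𝔓 := by
    intro 𝔓
    by_cases h : 𝔓.IsPrime ∧ I ≤ 𝔓
    · have h0 : 𝔓 ≠ ⊥ := by
        rintro rfl
        exact hI0 (le_bot_iff.mp h.2)
      obtain ⟨σ, hσ1, hσ2⟩ := lift_inertia τ h.1 h0 (fun x =>
        h.2 (Ideal.mem_map_of_mem (algebraMap (𝓞 E) (𝓞 K)) (hτ x)))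
      exact ⟨σ, fun _ _ => ⟨hσ1, hσ2⟩⟩
    · exact ⟨1, fun h1 h2 => absurd ⟨h1, h2⟩ h⟩
  choose fr hfr using hex
  set V : Finset (Fin m → K) := ((Set.toFinite S).image
    (fun σ : K ≃ₐ[ℚ] K => fun j => σ (A j))).toFinset with hV
  have hVk : V.card ≤ D ^ m := by
    have h1 : ((fun σ : K ≃ₐ[ℚ] K => fun j => σ (A j)) '' S).ncard ≤ 1 * D ^ m := by
      refine le_trans ?_ (tuple_count (fixE K E) S A hD (k := 1) ?_)
      · apply ncard_image_le_of_factor (Set.toFinite _)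
        intro σ _ σ' _ h
        exact congrArg Prod.snd h
      · rw [Set.ncard_le_one (Set.toFinite _)]
        rintro _ ⟨σ, hσ, rfl⟩ _ ⟨σ', hσ', rfl⟩
        exact QuotientGroup.eq.mpr (Ext.coset hσ hσ')
    rw [one_mul] at h1
    rwa [hV, ← Set.ncard_eq_toFinset_card _ ((Set.toFinite S).image _)]
  obtain ⟨y₀, Φ, hΦ, hF₀, hN₀⟩ := exists_classI hI0 hI1 (fun 𝔓 => fun j => fr 𝔓 (A j)) V hVk
    (fun 𝔓 h1 h2 => by
      rw [hV, Set.Finite.mem_toFinset]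
      exact ⟨fr 𝔓, (hfr 𝔓 h1 h2).1, rfl⟩)
  obtain ⟨𝔓₀, h𝔓₀⟩ := hΦ
  set σ : K ≃ₐ[ℚ] K := fr 𝔓₀ with hσdef
  have hσ : Ext τ σ := (hfr 𝔓₀ (hF₀ 𝔓₀ h𝔓₀).1 (hF₀ 𝔓₀ h𝔓₀).2.1).1
  obtain ⟨ι, hindι⟩ := hind σ hσ
  set B : Fin r → K := fun j => A (ι j) with hB'
  have hB : ∀ j, IsU (B j) := fun j => hA _
  have hF : ∀ 𝔓 ∈ Φ, ∃ σ' : K ≃ₐ[ℚ] K, (∀ x : 𝓞 K, σ' • x - x ∈ 𝔓) ∧ ∀ j, σ' (B j) = σ (B j) := by
    intro 𝔓 h𝔓
    obtain ⟨h1, h2, -, h3⟩ := hF₀ 𝔓 h𝔓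
    obtain ⟨-, -, -, h3'⟩ := hF₀ 𝔓₀ h𝔓₀
    exact ⟨fr 𝔓, (hfr 𝔓 h1 h2).2, fun j => congrFun (h3.trans h3'.symm) (ι j)⟩
  have hDR : (1:ℝ) ≤ D := by exact_mod_cast hD1
  have hM1' : (1:ℝ) ≤ M := by
    rw [hM]
    have h1 : (1:ℝ) ≤ (D : ℝ) ^ (m + 2 * r) := one_le_pow₀ hDR
    nlinarith
  have hN0 : (0:ℝ) < finrank ℚ K := by exact_mod_cast (finrank_pos : 0 < finrank ℚ K)
  -- units
  have hunit : ∀ x : K, IsU x → ∃ v : (𝓞 K)ˣ, algebraMap (𝓞 K) K (v : 𝓞 K) = x ∧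
      algebraMap (𝓞 K) K ((v⁻¹ : (𝓞 K)ˣ) : 𝓞 K) = x⁻¹ := by
    intro x hx
    set b : 𝓞 K := ⟨x, hx.2.1⟩ with hb
    set b' : 𝓞 K := ⟨x⁻¹, hx.2.2⟩ with hb'
    have hbα : algebraMap (𝓞 K) K b = x := rfl
    have hbα' : algebraMap (𝓞 K) K b' = x⁻¹ := rfl
    have hbb : b * b' = 1 := by
      apply RingOfIntegers.coe_injective
      rw [map_mul, hbα, hbα', mul_inv_cancel₀ hx.1, map_one]
    exact ⟨⟨b, b', hbb, by rw [mul_comm]; exact hbb⟩, rfl, rfl⟩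
  choose b hb hb' using fun j => hunit (B j) (hB j)
  choose c hc hc' using fun j => hunit (σ (B j)) ((hB j).aut σ)
  set e : Fin r → (𝓞 K)ˣ := fun j => b j * (c j)⁻¹ with he
  set w : (Fin r → Fin T) → (𝓞 K)ˣ := fun s => ∏ j, e j ^ (s j : ℕ) with hw
  have heK : ∀ j, algebraMap (𝓞 K) K (e j : 𝓞 K) = B j * (σ (B j))⁻¹ := by
    intro j
    rw [he]
    simp only [Units.val_mul, map_mul, hb, hc']
  have hwK : ∀ s, algebraMap (𝓞 K) K (w s : 𝓞 K) = ∏ j, (B j * (σ (B j))⁻¹) ^ (s j : ℕ) := by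
    intro s
    rw [hw]
    simp only [Units.coe_prod, Units.val_pow_eq_pow_val, map_prod, map_pow, heK]
  -- congruences
  have hcong : ∀ 𝔓 ∈ Φ, ∀ s, (w s : 𝓞 K) - 1 ∈ 𝔓 := by
    intro 𝔓 h𝔓 s
    obtain ⟨σ', hσ', hcl⟩ := hF 𝔓 h𝔓
    have he1 : ∀ j, (e j : 𝓞 K) - 1 ∈ 𝔓 := by
      intro j
      have h1 : (c j : 𝓞 K) = σ' • (b j : 𝓞 K) := by
        apply RingOfIntegers.coe_injective
        rw [hc, smul_coe, hb]
        exact (hcl j).symm
      have h2 : (b j : 𝓞 K) - c j ∈ 𝔓 := by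
        rw [h1, ← neg_sub]
        exact neg_mem (hσ' _)
      have h3 : (e j : 𝓞 K) - 1 = ((b j : 𝓞 K) - c j) * ((c j)⁻¹ : (𝓞 K)ˣ) := by
        rw [sub_mul, ← Units.val_mul (c j), mul_inv_cancel, Units.val_one, he]
        simp only [Units.val_mul]
      rw [h3]
      exact Ideal.mul_mem_right _ _ h2
    have hmk : ∀ j, Ideal.Quotient.mk 𝔓 (e j : 𝓞 K) = 1 := by
      intro j
      rw [← map_one (Ideal.Quotient.mk 𝔓)]
      exact Ideal.Quotient.eq.mpr (he1 j)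
    have h4 : Ideal.Quotient.mk 𝔓 (w s : 𝓞 K) = 1 := by
      rw [hw]
      simp only [Units.coe_prod, Units.val_pow_eq_pow_val, map_prod, map_pow, hmk, one_pow,
        Finset.prod_const_one]
    rw [← map_one (Ideal.Quotient.mk 𝔓)] at h4
    exact Ideal.Quotient.eq.mp h4
  -- independence
  have hne : ∀ j, B j * (σ (B j))⁻¹ ≠ 0 := fun j =>
    mul_ne_zero (hB j).1 (inv_ne_zero ((hB j).aut σ).1)
  have hlge : ∀ j, lg (B j * (σ (B j))⁻¹) = lg (B j) - act σ (lg (B j)) := by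
    intro j
    rw [lg_mul (hB j).1 (inv_ne_zero ((hB j).aut σ).1), lg_inv, lg_act, sub_eq_add_neg]
  have hlgprod : ∀ s : Fin r → Fin T, lg (algebraMap (𝓞 K) K (w s : 𝓞 K)) =
      ∑ j, ((s j : ℕ) : ℤ) • (lg (B j) - act σ (lg (B j))) := by
    intro s
    rw [hwK]
    have h1 : ∀ S : Finset (Fin r), (∏ j ∈ S, (B j * (σ (B j))⁻¹) ^ (s j : ℕ)) ≠ 0 ∧
        lg (∏ j ∈ S, (B j * (σ (B j))⁻¹) ^ (s j : ℕ)) =
        ∑ j ∈ S, ((s j : ℕ) : ℤ) • (lg (B j) - act σ (lg (B j))) := by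
      intro S
      induction S using Finset.induction_on with
      | empty => exact ⟨by simp, by rw [Finset.prod_empty, Finset.sum_empty]; exact lg_one⟩
      | insert i S hi ih =>
        rw [Finset.prod_insert hi, Finset.sum_insert hi]
        refine ⟨mul_ne_zero (pow_ne_zero _ (hne i)) ih.1, ?_⟩
        rw [lg_mul (pow_ne_zero _ (hne i)) ih.1, ih.2, lg_pow, hlge, ← natCast_zsmul]
    exact (h1 Finset.univ).2
  have hinj' : Function.Injective (fun s : Fin r → Fin T => algebraMap (𝓞 K) K (w s : 𝓞 K)) := by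
    intro s s' hss
    have h1 := congrArg lg hss
    simp only [hlgprod] at h1
    have h2 : ∑ j, (((s j : ℕ) : ℤ) - ((s' j : ℕ) : ℤ)) • (lg (B j) - act σ (lg (B j))) = 0 := by
      simp_rw [sub_smul (((s _ : ℕ) : ℤ))]
      rw [Finset.sum_sub_distrib, h1, sub_self]
    have h3 := (Fintype.linearIndependent_iff.mp hindι) _ h2
    funext j
    apply Fin.ext
    have := h3 j
    omega
  -- heights
  have hlame : ∀ j, lam (B j * (σ (B j))⁻¹) ≤ 2 * Λ := by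
    intro j
    refine (lam_mul_le _ _).trans ?_
    have h1 := (hB j).aut σ
    rw [lam_inv h1.2.1 h1.2.2 h1.1, lam_aut]
    have h2 : lam (B j) ≤ Λ := hΛ _
    linarith
  have hlam : ∀ s, lam (algebraMap (𝓞 K) K (w s : 𝓞 K)) ≤ r * T * (2 * Λ) := by
    intro s
    rw [hwK]
    refine (lam_prod_le _ _ _).trans ?_
    have h1 : ∀ j ∈ (Finset.univ : Finset (Fin r)),
        ((s j : ℕ) : ℝ) * lam (B j * (σ (B j))⁻¹) ≤ T * (2 * Λ) := by
      intro j _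
      apply mul_le_mul _ (hlame j) (lam_nonneg _) (Nat.cast_nonneg _)
      exact_mod_cast (s j).2.le
    refine (Finset.sum_le_sum h1).trans (le_of_eq ?_)
    rw [Finset.sum_const, Finset.card_univ, Fintype.card_fin, nsmul_eq_mul]
    ring
  -- the energy
  have hfin := energy_bound_norm (K := K) (ι := Fin r → Fin T)
    (fun s => algebraMap (𝓞 K) K (w s : 𝓞 K)) hinj' hM1' (by
      intro s s' hss
      set x : 𝓞 K := (w s : 𝓞 K) - w s' with hx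
      have hx0 : x ≠ 0 := by
        intro h0
        apply hss
        apply hinj'
        show algebraMap (𝓞 K) K (w s : 𝓞 K) = algebraMap (𝓞 K) K (w s' : 𝓞 K)
        rw [sub_eq_zero.mp h0]
      have hxm : ∀ 𝔓 ∈ Φ, x ∈ 𝔓 := by
        intro 𝔓 h𝔓
        have h1 := Ideal.sub_mem _ (hcong 𝔓 h𝔓 s) (hcong 𝔓 h𝔓 s')
        have h2 : (w s : 𝓞 K) - 1 - ((w s' : 𝓞 K) - 1) = x := by rw [hx]; ring
        rwa [h2] at h1
      have horb : (orbN (fixE K E) (algebraMap (𝓞 K) K x)).ncard ≤ D ^ (2 * r) := by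
        have h1 := orb_le_of_tuple (fixE K E) (ι := Fin r ⊕ Fin r) (D := D)
          (Sum.elim B fun j => σ (B j)) (by
            rintro (j | j)
            · exact hD _
            · exact (orb_ext hσ (B j)).trans (hD _)) (x := algebraMap (𝓞 K) K x) (by
            intro τ τ' hττ
            rw [hx, map_sub, hwK, hwK, map_sub, map_sub, map_prod, map_prod, map_prod, map_prod]
            have h2 : ∀ j, τ (B j) = τ' (B j) := fun j => hττ (Sum.inl j)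
            have h3 : ∀ j, τ (σ (B j)) = τ' (σ (B j)) := fun j => hττ (Sum.inr j)
            simp only [map_pow, map_mul, map_inv₀, h2, h3])
        rwa [Fintype.card_sum, Fintype.card_fin, ← two_mul] at h1
      have hlogle := norm_lowerI hJ0 hJ (fixE K E) (fun x hx => fixE_fixed E x hx)
        (fun 𝔓 h𝔓 => ⟨(hF₀ 𝔓 h𝔓).1, (hF₀ 𝔓 h𝔓).2.1, (hF₀ 𝔓 h𝔓).2.2.1⟩) hx0 hxm horb
      have hsumlog : ∑ φ : K →ₐ[ℚ] ℂ, Real.log ‖φ (algebraMap (𝓞 K) K (w s : 𝓞 K)) -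
          φ (algebraMap (𝓞 K) K (w s' : 𝓞 K))‖ =
          ∑ φ : K →ₐ[ℚ] ℂ, Real.log ‖φ (algebraMap (𝓞 K) K x)‖ := by
        refine Finset.sum_congr rfl fun φ _ => ?_
        rw [hx, map_sub, map_sub]
      rw [hsumlog]
      have hdeg : (finrank ℚ K : ℝ) = finrank ℚ E * finrank E K := by
        rw [← Module.finrank_mul_finrank ℚ E K]
        push_cast
        ring
      calc (finrank ℚ K : ℝ) * Real.log 2 = (finrank ℚ E * Real.log 2) * finrank E K := by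
            rw [hdeg]; ring
        _ ≤ (L * Real.log (Ideal.absNorm J)) * finrank E K := by gcongr
        _ = L * Real.log (Ideal.absNorm I) := by rw [hIlog]; ring
        _ ≤ L * (((D ^ m : ℕ) : ℝ) * ∑ 𝔓 ∈ Φ, (multI I 𝔓 : ℝ) * Real.log (Ideal.absNorm 𝔓)) := by
            gcongr
        _ ≤ L * (((D ^ m : ℕ) : ℝ) * (((D ^ (2 * r) : ℕ) : ℝ) *
              ∑ φ : K →ₐ[ℚ] ℂ, Real.log ‖φ (algebraMap (𝓞 K) K x)‖)) := by
            gcongr
        _ = M * ∑ φ : K →ₐ[ℚ] ℂ, Real.log ‖φ (algebraMap (𝓞 K) K x)‖ := by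
            rw [hM]
            push_cast
            ring)
    (τ := r * T * (2 * Λ) / finrank ℚ K) (by
      intro s
      refine (hlam s).trans (le_of_eq ?_)
      field_simp)
    (by
      rw [Fintype.card_fun, Fintype.card_fin, Fintype.card_fin]
      push_cast
      exact hT)
  rw [le_div_iff₀ hN0] at hfin
  have h3 : (0:ℝ) < 16 * M := by positivity
  calc (finrank ℚ K : ℝ) = 16 * M * (1 / (16 * M) * finrank ℚ K) := by field_simp
    _ ≤ _ := mul_le_mul_of_nonneg_left hfin h3.le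

end Pool.Agent.Run7.h816.IN
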