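import Mathlib

/-!
# Independent functions from functions with supports of bounded multiplicity
-/

set_option autoImplicit false

open Finset

namespace Pool.Agent.Run7.h816.IN

lemma indep_tri {X : Type*} {r : ℕ} (g : Fin r → X → ℝ) (pt : Fin r → X)
    (h0 : ∀ a b, b < a → g a (pt b) = 0) (h1 : ∀ a, g a (pt a) ≠ 0) : LinearIndependent ℤ g := by
  rw [Fintype.linearIndependent_iff]
  intro c hc a
  induction a using WellFoundedLT.induction with
  | ind a ih =>
    have h2 := congrFun hc (pt a)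
    rw [Finset.sum_apply, Pi.zero_apply] at h2
    rw [Finset.sum_eq_single a] at h2
    · rw [Pi.smul_apply, zsmul_eq_mul] at h2
      rcases mul_eq_zero.mp h2 with h3 | h3
      · exact_mod_cast h3
      · exact absurd h3 (h1 a)
    · intro b _ hb
      rcases lt_or_gt_of_ne hb with h3 | h3
      · rw [ih b h3, zero_smul, Pi.zero_apply]
      · rw [Pi.smul_apply, h0 b a h3, smul_zero]
    · intro h
      exact absurd (Finset.mem_univ a) h

/-- **Independent functions**: nonzero functions such that at each point at most `t` of them are not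
zero. -/
lemma exists_indep {X : Type*} {m t : ℕ} (f : Fin m → X → ℝ) (hf : ∀ i, f i ≠ 0)
    (ht : ∀ x : X, (univ.filter fun i => f i x ≠ 0).card ≤ t) :
    ∀ r : ℕ, (∀ k < r, t * k < m) →
    ∃ (ι : Fin r → Fin m) (pt : Fin r → X), (∀ a b, b < a → f (ι a) (pt b) = 0) ∧
      ∀ a, f (ι a) (pt a) ≠ 0 := by
  classical
  intro r
  induction r with
  | zero => exact fun _ => ⟨Fin.elim0, Fin.elim0, fun a => a.elim0, fun a => a.elim0⟩
  | succ r ih =>
    intro hr
    obtain ⟨ι, pt, h0, h1⟩ := ih fun k hk => hr k (Nat.lt_succ_of_lt hk)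
    obtain ⟨i, hi⟩ : ∃ i, ∀ b, f i (pt b) = 0 := by
      by_contra hcon
      push Not at hcon
      have h2 : (univ : Finset (Fin m)) ⊆ univ.biUnion fun b : Fin r => univ.filter fun i => f i (pt b) ≠ 0 := by
        intro i _
        obtain ⟨b, hb⟩ := hcon i
        exact Finset.mem_biUnion.mpr ⟨b, Finset.mem_univ b, by simpa using hb⟩
      have h3 := Finset.card_le_card h2
      have h4 := Finset.card_biUnion_le_card_mul (univ : Finset (Fin r))
        (fun b : Fin r => univ.filter fun i => f i (pt b) ≠ 0) t (fun b _ => ht (pt b))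
      rw [Finset.card_univ, Fintype.card_fin] at h3 h4
      have h5 := hr r (Nat.lt_succ_self r)
      rw [mul_comm] at h4
      omega
    obtain ⟨x, hx⟩ : ∃ x, f i x ≠ 0 := by
      by_contra hcon
      push Not at hcon
      exact hf i (funext hcon)
    refine ⟨Fin.snoc ι i, Fin.snoc pt x, ?_, ?_⟩
    · intro a b hab
      induction a using Fin.lastCases with
      | last =>
        rw [Fin.snoc_last]
        induction b using Fin.lastCases with
        | last => exact absurd hab (lt_irrefl _)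
        | cast b => rw [Fin.snoc_castSucc]; exact hi b
      | cast a =>
        induction b using Fin.lastCases with
        | last => exact absurd hab (not_lt.mpr (Fin.le_last _))
        | cast b =>
          rw [Fin.snoc_castSucc, Fin.snoc_castSucc]
          exact h0 a b (Fin.castSucc_lt_castSucc_iff.mp hab)
    · intro a
      induction a using Fin.lastCases with
      | last => rw [Fin.snoc_last, Fin.snoc_last]; exact hx
      | cast a => rw [Fin.snoc_castSucc, Fin.snoc_castSucc]; exact h1 a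

/-- the numerical part -/
lemma num_in {L : ℝ} (hL : 1 ≤ L) {r d n : ℕ} (hr : 1 ≤ r) (hn : 1 ≤ n) :
    ∃ T : ℕ, 256 * (L * (n : ℝ) ^ (r * d)) ^ 2 ≤ (T : ℝ) ^ r ∧
      16 * (L * (n : ℝ) ^ (r * d)) * (r * T * 2) ≤
        8224 * (r * (n : ℝ) ^ ((r + 2) * d) * L ^ (1 + 2 / (r : ℝ))) := by
  have hL0 : 0 < L := by linarith
  have hnR : (1:ℝ) ≤ n := by exact_mod_cast hn
  have hr0 : (r : ℝ) ≠ 0 := by exact_mod_cast (by omega : r ≠ 0)
  set y : ℝ := L ^ (2 / (r : ℝ)) * (n : ℝ) ^ (2 * d) with hy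
  have hLr : 1 ≤ L ^ (2 / (r : ℝ)) := Real.one_le_rpow hL (by positivity)
  have hy1 : 1 ≤ y := by
    have h1 : (1:ℝ) ≤ (n : ℝ) ^ (2 * d) := one_le_pow₀ hnR
    nlinarith
  have hLr2 : (L ^ (2 / (r : ℝ))) ^ r = L ^ 2 := by
    rw [← Real.rpow_natCast, ← Real.rpow_mul hL0.le, div_mul_cancel₀ _ hr0]
    exact_mod_cast Real.rpow_natCast L 2
  refine ⟨⌈256 * y⌉₊, ?_, ?_⟩
  · have hT : 256 * y ≤ (⌈256 * y⌉₊ : ℝ) := Nat.le_ceil _
    have h1 := pow_le_pow_left₀ (by positivity) hT r
    refine le_trans ?_ h1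
    have h2 : (256:ℝ) ≤ 256 ^ r := by
      calc (256:ℝ) = 256 ^ 1 := (pow_one _).symm
        _ ≤ 256 ^ r := pow_le_pow_right₀ (by norm_num) hr
    have h3 : y ^ r = (L * (n : ℝ) ^ (r * d)) ^ 2 := by
      rw [hy, mul_pow, hLr2, mul_pow, ← pow_mul, ← pow_mul]
      congr 2
      ring
    rw [mul_pow 256 y r, h3]
    exact mul_le_mul_of_nonneg_right h2 (by positivity)
  · have hT : (⌈256 * y⌉₊ : ℝ) ≤ 257 * y := by
      have h1 := (Nat.ceil_lt_add_one (show 0 ≤ 256 * y by positivity)).le
      linarith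
    have h4 : L ^ (1 + 2 / (r : ℝ)) = L * L ^ (2 / (r : ℝ)) := by
      rw [Real.rpow_add hL0, Real.rpow_one]
    calc 16 * (L * (n : ℝ) ^ (r * d)) * (r * (⌈256 * y⌉₊ : ℝ) * 2)
        ≤ 16 * (L * (n : ℝ) ^ (r * d)) * (r * (257 * y) * 2) := by gcongr
      _ = _ := by
          rw [h4, hy, add_mul, pow_add]
          ring

end Pool.Agent.Run7.h816.IN
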