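import Mathlib
import Pool.Agent.Run7.h816.IN.In2
import Pool.Agent.Run7.h816.IN.In3
import Pool.Agent.Run7.h816.MG.Gal
import Pool.Agent.Run7.h816.MG.Marg

/-!
# Units over a field which is embedded in a field with an automorphism
-/

set_option autoImplicit false

open Finset Module NumberField Polynomial

namespace Pool.Agent.Run7.h816.IN

open Pool.Agent.H388SL Pool.Agent.H225R3.Marg Pool.Agent.Run7.h22 Pool.Agent.Run7.h816.MG

/-- two embeddings in a Galois field differ by an automorphism -/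
lemma exists_aut {k K : Type} [Field k] [NumberField k] [Field K] [NumberField K] [IsGalois ℚ K]
    (ψ₁ ψ₂ : k →+* K) : ∃ g : K ≃ₐ[ℚ] K, ∀ y, g (ψ₁ y) = ψ₂ y := by
  let _ : Algebra k K := ψ₁.toAlgebra
  have hst : IsScalarTower ℚ k K := IsScalarTower.of_algebraMap_eq' (RingHom.ext_rat _ _)
  let ψ : k →ₐ[ℚ] K := ψ₂.toRatAlgHom
  let g : K →ₐ[ℚ] K := ψ.liftNormal K
  have hg : ∀ y, g (ψ₁ y) = ψ₂ y := fun y => AlgHom.liftNormal_commutes ψ K y
  exact ⟨AlgEquiv.ofBijective g (Algebra.IsAlgebraic.algHom_bijective g), hg⟩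

/-- the number of the images of the embedding `κ` of `k` in `E` under the powers of `τ` -/
noncomputable def orbLen {k E : Type} [Field k] [Field E] [NumberField E] (τ : E ≃ₐ[ℚ] E)
    (κ : k →+* E) : ℕ :=
  (Set.range fun i : ℕ => ((τ ^ i : E ≃ₐ[ℚ] E) : E →+* E).comp κ).ncard

lemma Ext.pow {K E : Type} [Field K] [NumberField K] [Field E] [NumberField E] [Algebra E K]
    {τ : E ≃ₐ[ℚ] E} {σ : K ≃ₐ[ℚ] K} (h : Ext τ σ) (i : ℕ) : Ext (τ ^ i) (σ ^ i) := by
  induction i with
  | zero => intro y; rfl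
  | succ i ih =>
    intro y
    rw [pow_succ, pow_succ, AlgEquiv.mul_apply, AlgEquiv.mul_apply, h, ih]

/-- **Units of bounded degree over a field which is embedded in a field with an automorphism which is
trivial modulo an ideal of large norm.** -/
theorem unit_cong (k E L : Type) [Field k] [NumberField k] [Field E] [NumberField E] [Field L]
    [NumberField L] [Algebra k E] [Algebra k L] (τ : E ≃ₐ[ℚ] E) {J : Ideal (𝓞 E)} (hJ0 : J ≠ ⊥)
    (hJ : Squarefree J) (hτ : ∀ x : 𝓞 E, τ • x - x ∈ J) {c : ℝ} (hc : 1 ≤ c)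
    (hcJ : (finrank ℚ E : ℝ) * Real.log 2 ≤ c * Real.log (Ideal.absNorm J))
    (S : Finset (k →+* ℂ)) (hS : S.Nonempty) (x : L) (hx0 : x ≠ 0) (hxi : IsIntegral ℤ x)
    (hxinv : IsIntegral ℤ x⁻¹) (hroot : ∀ m : ℕ, 0 < m → x ^ m ≠ 1) {R : ℝ} (hR : 1 ≤ R)
    (hout : ∀ τ' : L →+* ℂ, τ'.comp (algebraMap k L) ∉ S → ‖τ' x‖ = 1)
    (hin : ∀ τ' : L →+* ℂ, ‖τ' x‖ ≤ R) {n : ℕ} (hdeg : finrank k L ≤ n) {r : ℕ} (hr : 1 ≤ r)
    (X : Finset (k →+* E)) (hX : 2 * S.card * r ≤ X.card)
    (hXo : ∀ κ ∈ X, S.card < orbLen τ κ) :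
    (finrank ℚ k : ℝ) ≤ 8224 * (r * (n : ℝ) ^ ((r + 2) * (2 * S.card + 2)) * c ^ (1 + 2 / (r : ℝ))) *
      (S.card * Real.log R) := by
  classical
  obtain ⟨K, _, _, _, iE, iL, hcomp⟩ := exists_closure k E L
  letI : Algebra E K := iE.toAlgebra
  letI : Algebra L K := iL.toAlgebra
  have hs1 : 1 ≤ S.card := Finset.card_pos.mpr hS
  have hfdL : FiniteDimensional k L := Module.Finite.of_restrictScalars_finite ℚ k L
  have hn1 : 1 ≤ n := le_trans finrank_pos hdeg
  set α : K := iL x with hα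
  have hU : IsU α := by
    refine ⟨(map_ne_zero iL).mpr hx0, hxi.map iL.toIntAlgHom, ?_⟩
    rw [hα, ← map_inv₀]
    exact hxinv.map iL.toIntAlgHom
  have hroot' : ∀ m : ℕ, 0 < m → α ^ m ≠ 1 := by
    intro m hm h
    apply hroot m hm
    apply iL.injective
    rw [map_pow, ← hα, h, map_one]
  -- the embeddings
  set m : ℕ := 2 * S.card * r with hm
  set κ : Fin m → (k →+* E) := fun j => (X.equivFin.symm (Fin.castLE hX j) : k →+* E) with hκ
  have hκX : ∀ j, κ j ∈ X := fun j => (X.equivFin.symm (Fin.castLE hX j)).2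
  have hκinj : Function.Injective κ := by
    intro j j' h
    have h1 := X.equivFin.symm.injective (Subtype.ext h)
    exact Fin.castLE_injective hX h1
  have hex : ∀ j, ∃ g : K ≃ₐ[ℚ] K, ∀ y : k, g (iE (algebraMap k E y)) = iE (κ j y) := fun j =>
    exists_aut (iE.comp (algebraMap k E)) (iE.comp (κ j))
  choose g hg using hex
  set A : Fin m → K := fun j => g j α with hA
  have hAU : ∀ j, IsU (A j) := fun j => hU.aut (g j)
  have hAroot : ∀ j, lg (A j) ≠ 0 := by
    intro j h0
    obtain ⟨N, hN, h1⟩ := (hAU j).root h0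
    apply hroot' N hN
    apply (g j).injective
    rw [map_pow, map_one]
    exact h1
  have hD : ∀ j, (orbN (fixE K E) (A j)).ncard ≤ n := by
    intro j
    have hxk : IsIntegral k x := Algebra.IsIntegral.isIntegral x
    refine orb_le_degree' E (A j) (P := (minpoly k x).map (κ j)) ?_ ?_ ?_
    · exact ((minpoly.monic hxk).map _).ne_zero
    · rw [(minpoly.monic hxk).natDegree_map]
      exact (minpoly.natDegree_le x).trans hdeg
    · rw [aeval_def, eval₂_map]
      have h1 : (algebraMap E K).comp (κ j) =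
          ((g j : K ≃ₐ[ℚ] K) : K →+* K).comp (iL.comp (algebraMap k L)) := by
        rw [← hcomp]
        ext y
        exact (hg j y).symm
      have h2 : A j = ((g j : K ≃ₐ[ℚ] K) : K →+* K) (iL x) := rfl
      rw [h1, h2, ← hom_eval₂, ← hom_eval₂, ← aeval_def, minpoly.aeval, map_zero, map_zero]
  -- supports
  have hsupp : ∀ j (φ : K →ₐ[ℚ] ℂ), lg (A j) φ ≠ 0 → (φ : K →+* ℂ).comp (iE.comp (κ j)) ∈ S := by
    intro j φ h
    by_contra hcon
    apply h
    set ρ : L →+* ℂ := ((φ : K →+* ℂ).comp ((g j : K ≃ₐ[ℚ] K) : K →+* K)).comp iL with hρ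
    have h1 : ρ.comp (algebraMap k L) = (φ : K →+* ℂ).comp (iE.comp (κ j)) := by
      ext y
      show φ (g j ((iL.comp (algebraMap k L)) y)) = φ (iE (κ j y))
      rw [← hcomp, ← hg j y]
      rfl
    have h2 := hout ρ (by rw [h1]; exact hcon)
    show Real.log ‖φ (g j α)‖ = 0
    have h3 : φ (g j α) = ρ x := rfl
    rw [h3, h2, Real.log_one]
  have hinjE : ∀ φ : K →ₐ[ℚ] ℂ, Function.Injective (fun κ' : k →+* E =>
      (φ : K →+* ℂ).comp (iE.comp κ')) := by
    intro φ κ₁ κ₂ h
    ext y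
    apply iE.injective
    apply (φ : K →+* ℂ).injective
    exact RingHom.congr_fun h y
  have hind : ∀ σ : K ≃ₐ[ℚ] K, Ext τ σ → ∃ ι : Fin r → Fin m,
      LinearIndependent ℤ fun j => lg (A (ι j)) - act σ (lg (A (ι j))) := by
    intro σ hσ
    have hσcomp : ∀ (i : ℕ) (φ : K →ₐ[ℚ] ℂ) (κ' : k →+* E),
        ((φ.comp ((σ ^ i : K ≃ₐ[ℚ] K) : K →ₐ[ℚ] K) : K →ₐ[ℚ] ℂ) : K →+* ℂ).comp (iE.comp κ') =
        (φ : K →+* ℂ).comp (iE.comp (((τ ^ i : E ≃ₐ[ℚ] E) : E →+* E).comp κ')) := by
      intro i φ κ'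
      ext y
      show φ ((σ ^ i) (algebraMap E K (κ' y))) = φ (algebraMap E K ((τ ^ i) (κ' y)))
      rw [hσ.pow i]
    obtain ⟨ι, pt, h0, h1⟩ := exists_indep (t := 2 * S.card)
      (fun j => lg (A j) - act σ (lg (A j))) (by
        intro j hj
        have h1 : act σ (lg (A j)) = lg (A j) := (sub_eq_zero.mp hj).symm
        obtain ⟨φ, hφ⟩ : ∃ φ, lg (A j) φ ≠ 0 := by
          by_contra hcon
          push Not at hcon
          exact hAroot j (funext hcon)
        have h2 : ∀ i : ℕ, act (σ ^ i) (lg (A j)) = lg (A j) := by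
          intro i
          induction i with
          | zero => rw [pow_zero]; rfl
          | succ i ih => rw [pow_succ, act_mul, h1, ih]
        have h3 : ∀ i : ℕ, (φ : K →+* ℂ).comp (iE.comp
            (((τ ^ i : E ≃ₐ[ℚ] E) : E →+* E).comp (κ j))) ∈ S := by
          intro i
          rw [← hσcomp]
          apply hsupp
          have h4 := congrFun (h2 i) φ
          show act (σ ^ i) (lg (A j)) φ ≠ 0
          rw [h4]
          exact hφ
        have h5 := hXo (κ j) (hκX j)
        unfold orbLen at h5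
        have h6 : (Set.range fun i : ℕ => ((τ ^ i : E ≃ₐ[ℚ] E) : E →+* E).comp (κ j)).ncard ≤
            (S : Set (k →+* ℂ)).ncard := by
          apply Set.ncard_le_ncard_of_injOn (fun κ' => (φ : K →+* ℂ).comp (iE.comp κ'))
          · rintro _ ⟨i, rfl⟩
            exact h3 i
          · exact (hinjE φ).injOn
        rw [Set.ncard_coe_finset] at h6
        omega)
      (by
        intro φ
        have h1 : (univ.filter fun j => (lg (A j) - act σ (lg (A j))) φ ≠ 0) ⊆
            (univ.filter fun j => (φ : K →+* ℂ).comp (iE.comp (κ j)) ∈ S) ∪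
            (univ.filter fun j => (φ : K →+* ℂ).comp (iE.comp
              (((τ ^ 1 : E ≃ₐ[ℚ] E) : E →+* E).comp (κ j))) ∈ S) := by
          intro j hj
          rw [Finset.mem_filter] at hj
          rw [Finset.mem_union, Finset.mem_filter, Finset.mem_filter]
          by_cases h2 : lg (A j) φ = 0
          · right
            refine ⟨Finset.mem_univ j, ?_⟩
            rw [← hσcomp]
            apply hsupp
            intro h3
            apply hj.2
            rw [Pi.sub_apply, h2]
            have h4 : act σ (lg (A j)) φ = lg (A j) (φ.comp ((σ ^ 1 : K ≃ₐ[ℚ] K) : K →ₐ[ℚ] K)) := by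
              rw [pow_one]
              rfl
            rw [h4, h3, sub_zero]
          · left
            exact ⟨Finset.mem_univ j, hsupp j φ h2⟩
        refine (Finset.card_le_card h1).trans ((Finset.card_union_le _ _).trans ?_)
        rw [two_mul]
        apply Nat.add_le_add
        · apply Finset.card_le_card_of_injOn (fun j => (φ : K →+* ℂ).comp (iE.comp (κ j)))
          · intro j hj
            exact (Finset.mem_filter.mp hj).2
          · exact ((hinjE φ).comp hκinj).injOn
        · apply Finset.card_le_card_of_injOn (fun j => (φ : K →+* ℂ).comp (iE.comp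
              (((τ ^ 1 : E ≃ₐ[ℚ] E) : E →+* E).comp (κ j))))
          · intro j hj
            exact (Finset.mem_filter.mp hj).2
          · intro j _ j' _ h
            have h2 := hinjE φ h
            apply hκinj
            ext y
            exact (τ ^ 1 : E ≃ₐ[ℚ] E).injective (RingHom.congr_fun h2 y))
      r (by
        intro k' hk'
        rw [hm]
        exact Nat.mul_lt_mul_of_pos_left hk' (by omega))
    exact ⟨ι, indep_tri _ pt (fun a b hab => h0 a b hab) h1⟩
  obtain ⟨T, hT1, hT2⟩ := num_in hc (d := 2 * S.card + 2) hr hn1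
  have h1 := core τ hJ0 hJ hτ hc hcJ A hAU (Λ := lam α) (fun j => (lam_aut _ _).le) hn1 hD hind
    (M := c * (n : ℝ) ^ (r * (2 * S.card + 2))) (by
      rw [hm]
      congr 2
      ring) hT1
  have h2 : lam α = finrank L K * lam x := lam_sub L x
  have h3 : finrank ℚ k * finrank k L * finrank L K = finrank ℚ K := by
    rw [Module.finrank_mul_finrank ℚ k L, Module.finrank_mul_finrank ℚ L K]
  have h4 := lam_few S x hR (fun τ' h => (hout τ' h).le) hin
  haveI : FiniteDimensional L K := Module.Finite.of_restrictScalars_finite ℚ L K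
  have h5 : (0 : ℝ) < finrank k L := by exact_mod_cast finrank_pos
  have h6 : (0 : ℝ) < finrank L K := by exact_mod_cast finrank_pos
  have hlamx : 0 ≤ lam x := lam_nonneg x
  have h7 : 0 ≤ 8224 * (r * (n : ℝ) ^ ((r + 2) * (2 * S.card + 2)) * c ^ (1 + 2 / (r : ℝ))) := by
    have : 0 ≤ c ^ (1 + 2 / (r : ℝ)) := Real.rpow_nonneg (by linarith) _
    positivity
  have h8 : (finrank ℚ k : ℝ) * (finrank k L * finrank L K) ≤
      (8224 * (r * (n : ℝ) ^ ((r + 2) * (2 * S.card + 2)) * c ^ (1 + 2 / (r : ℝ))) *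
        (S.card * Real.log R)) * (finrank k L * finrank L K) := by
    calc (finrank ℚ k : ℝ) * (finrank k L * finrank L K) = ((finrank ℚ K : ℕ) : ℝ) := by
          rw [← h3]; push_cast; ring
      _ ≤ 16 * (c * (n : ℝ) ^ (r * (2 * S.card + 2))) * (r * T * (2 * lam α)) := h1
      _ = (16 * (c * (n : ℝ) ^ (r * (2 * S.card + 2))) * (r * T * 2)) * lam α := by ring
      _ ≤ (8224 * (r * (n : ℝ) ^ ((r + 2) * (2 * S.card + 2)) * c ^ (1 + 2 / (r : ℝ)))) *
          (finrank L K * lam x) := by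
          rw [h2]
          exact mul_le_mul_of_nonneg_right hT2 (by positivity)
      _ ≤ (8224 * (r * (n : ℝ) ^ ((r + 2) * (2 * S.card + 2)) * c ^ (1 + 2 / (r : ℝ)))) *
          (finrank L K * (((S.card * finrank k L : ℕ) : ℝ) * Real.log R)) := by
          gcongr
      _ = _ := by push_cast; ring
  exact le_of_mul_le_mul_right h8 (by positivity)

end Pool.Agent.Run7.h816.IN
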