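import Mathlib
import Pool.Agent.Run7.h816.IN.In4

/-!
# Integral matrices over a field which is embedded in a field with an automorphism
-/

set_option autoImplicit false

open Finset Polynomial Module NumberField

namespace Pool.Agent.Run7.h816.IN

open Pool.Agent.H388SL Pool.Agent.H225R3.Marg Pool.Agent.Run7.h22 Pool.Agent.Run7.h816.MG

/-- **From eigenvalues to matrices**, with eigenvalues that are units. -/
theorem gap_of2 (k : Type) [Field k] [NumberField k] (n : ℕ) (S : Finset (k →+* ℂ))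
    (A : Matrix (Fin n) (Fin n) (𝓞 k)) (P : ℝ → Prop)
    (hP : ∀ (L : Type) [Field L] [NumberField L] [Algebra k L] (x : L) (R : ℝ), x ≠ 0 →
      IsIntegral ℤ x → IsIntegral ℤ x⁻¹ → (∀ m : ℕ, 0 < m → x ^ m ≠ 1) → 1 ≤ R → S.Nonempty →
      (∀ τ : L →+* ℂ, τ.comp (algebraMap k L) ∉ S → ‖τ x‖ = 1) → (∀ τ : L →+* ℂ, ‖τ x‖ ≤ R) →
      finrank k L ≤ n → P R)
    (hA : IsUnit A)
    (hout : ∀ σ : k →+* ℂ, σ ∉ S → ∀ l : ℂ, ((emb σ).mapMatrix A).charpoly.IsRoot l → ‖l‖ = 1)
    (hnil : ∀ N : ℕ, 0 < N → ¬ IsNilpotent (A ^ N - 1)) :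
    ∃ σ ∈ S, ∃ l : ℂ, ((emb σ).mapMatrix A).charpoly.IsRoot l ∧ 1 < ‖l‖ ∧ P ‖l‖ := by
  classical
  -- a root which is not a root of unity
  set f : 𝓞 k →+* AlgebraicClosure k :=
    (algebraMap k (AlgebraicClosure k)).comp (algebraMap (𝓞 k) k) with hf
  have hfinj : Function.Injective f :=
    (algebraMap k (AlgebraicClosure k)).injective.comp
      (FaithfulSMul.algebraMap_injective (𝓞 k) k)
  obtain ⟨l, hl, hlN⟩ : ∃ l, (A.charpoly.map f).IsRoot l ∧ ∀ N : ℕ, 0 < N → l ^ N ≠ 1 := by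
    by_contra hcon
    push Not at hcon
    obtain ⟨N, hN, h⟩ := nilp_of_roots f hfinj A hcon
    exact hnil N hN h
  have hspec : l ∈ spectrum (AlgebraicClosure k) (f.mapMatrix A) := by
    rw [Matrix.mem_spectrum_iff_isRoot_charpoly]
    have : (f.mapMatrix A).charpoly = A.charpoly.map f := by rw [← Matrix.charpoly_map]; rfl
    rw [this]
    exact hl
  have hl0 : l ≠ 0 := by
    rintro rfl
    exact (spectrum.zero_notMem_iff _).mpr (hA.map f.mapMatrix) hspec
  -- the field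
  have hlint : IsIntegral k l := Algebra.IsIntegral.isIntegral l
  let L := IntermediateField.adjoin k {l}
  have hfd0 : FiniteDimensional k L := IntermediateField.adjoin.finiteDimensional hlint
  have hcz0 : CharZero L := charZero_of_injective_algebraMap (algebraMap k L).injective
  have hnf0 : NumberField L := NumberField.of_module_finite k L
  let x : L := ⟨l, IntermediateField.mem_adjoin_simple_self k l⟩
  have hxl : algebraMap L (AlgebraicClosure k) x = l := rfl
  set g : 𝓞 k →+* L := (algebraMap k L).comp (algebraMap (𝓞 k) k) with hg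
  have hgf : (algebraMap L (AlgebraicClosure k)).comp g = f := by
    rw [hg, hf, ← RingHom.comp_assoc]
    rfl
  have hx0 : eval₂ g x A.charpoly = 0 := by
    apply (algebraMap L (AlgebraicClosure k)).injective
    rw [map_zero, hom_eval₂, hgf, hxl]
    rw [IsRoot, eval_map] at hl
    exact hl
  have hst0 : IsScalarTower ℤ (𝓞 k) L := IsScalarTower.of_algebraMap_eq' (RingHom.ext_int _ _)
  have hxint : IsIntegral ℤ x := by
    have h1 : IsIntegral (𝓞 k) x := by
      refine ⟨A.charpoly, A.charpoly_monic, ?_⟩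
      have : algebraMap (𝓞 k) L = g := rfl
      rw [this]
      exact hx0
    exact isIntegral_trans x h1
  have hxinv : IsIntegral ℤ x⁻¹ := by
    refine inv_integral g (fun c => ?_) ?_ hxint hx0
    · have h1 : IsIntegral ℤ c := Algebra.IsIntegral.isIntegral c
      exact h1.map (g.toIntAlgHom)
    · rw [Matrix.isUnit_iff_isUnit_det] at hA
      have h1 := Matrix.det_eq_sign_charpoly_coeff A
      rw [h1] at hA
      exact isUnit_of_mul_isUnit_right hA
  have hxne : x ≠ 0 := by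
    intro h
    apply hl0
    rw [← hxl, h, map_zero]
  have hxroot : ∀ N : ℕ, 0 < N → x ^ N ≠ 1 := by
    intro N hN h
    apply hlN N hN
    rw [← hxl, ← map_pow, h, map_one]
  have hdeg : finrank k L ≤ n := by
    have h1 : finrank k L = (minpoly k l).natDegree := IntermediateField.adjoin.finrank hlint
    rw [h1]
    have h2 : (A.charpoly.map (algebraMap (𝓞 k) k)).Monic := A.charpoly_monic.map _
    have h3 : aeval l (A.charpoly.map (algebraMap (𝓞 k) k)) = 0 := by
      rw [aeval_def, eval₂_map]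
      rw [IsRoot, eval_map] at hl
      exact hl
    refine (natDegree_le_of_dvd (minpoly.dvd k l h3) h2.ne_zero).trans ?_
    rw [A.charpoly_monic.natDegree_map, Matrix.charpoly_natDegree_eq_dim, Fintype.card_fin]
  -- norms of the conjugates
  have hτroot : ∀ τ : L →+* ℂ,
      ((emb (τ.comp (algebraMap k L))).mapMatrix A).charpoly.IsRoot (τ x) := by
    intro τ
    have h1 : ((emb (τ.comp (algebraMap k L))).mapMatrix A).charpoly =
        A.charpoly.map (emb (τ.comp (algebraMap k L))) := by rw [← Matrix.charpoly_map]; rfl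
    rw [h1, IsRoot, eval_map]
    have h2 : emb (τ.comp (algebraMap k L)) = τ.comp g := rfl
    rw [h2, ← hom_eval₂, hx0, map_zero]
  have hτout : ∀ τ : L →+* ℂ, τ.comp (algebraMap k L) ∉ S → ‖τ x‖ = 1 :=
    fun τ hτ => hout _ hτ _ (hτroot τ)
  obtain ⟨τ1, hτ1⟩ : ∃ τ1 : L →+* ℂ, 1 < ‖τ1 x‖ := by
    by_contra hcon
    push Not at hcon
    obtain ⟨N, hN, h⟩ := NumberField.Embeddings.pow_eq_one_of_norm_le_one L ℂ hxne hxint hcon
    exact hxroot N hN h
  obtain ⟨τ0, -, hmax⟩ := Finset.exists_max_image (univ : Finset (L →+* ℂ)) (fun τ => ‖τ x‖)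
    ⟨τ1, Finset.mem_univ _⟩
  have hτ0 : 1 < ‖τ0 x‖ := hτ1.trans_le (hmax τ1 (Finset.mem_univ _))
  have hmem : τ0.comp (algebraMap k L) ∈ S := by
    by_contra h
    exact absurd hτ0 (not_lt.mpr (hτout τ0 h).le)
  refine ⟨_, hmem, τ0 x, hτroot τ0, hτ0, ?_⟩
  exact hP L x ‖τ0 x‖ hxne hxint hxinv hxroot hτ0.le ⟨_, hmem⟩ hτout
    (fun τ => hmax τ (Finset.mem_univ _)) hdeg

/-- **The gap for fields with many embeddings in a field with an automorphism which is trivial modulo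
an ideal of large norm.** -/
theorem gap_cong (k E : Type) [Field k] [NumberField k] [Field E] [NumberField E] [Algebra k E]
    (τ : E ≃ₐ[ℚ] E) {J : Ideal (𝓞 E)} (hJ0 : J ≠ ⊥) (hJ : Squarefree J)
    (hτ : ∀ x : 𝓞 E, τ • x - x ∈ J) {c : ℝ} (hc : 1 ≤ c)
    (hcJ : (finrank ℚ E : ℝ) * Real.log 2 ≤ c * Real.log (Ideal.absNorm J))
    (n : ℕ) (S : Finset (k →+* ℂ)) (A : Matrix (Fin n) (Fin n) (𝓞 k)) {r : ℕ} (hr : 1 ≤ r)
    (X : Finset (k →+* E)) (hX : 2 * S.card * r ≤ X.card) (hXo : ∀ κ ∈ X, S.card < orbLen τ κ)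
    (hA : IsUnit A)
    (hout : ∀ σ : k →+* ℂ, σ ∉ S → ∀ l : ℂ, ((emb σ).mapMatrix A).charpoly.IsRoot l → ‖l‖ = 1)
    (hnil : ∀ N : ℕ, 0 < N → ¬ IsNilpotent (A ^ N - 1)) :
    ∃ σ ∈ S, ∃ l : ℂ, ((emb σ).mapMatrix A).charpoly.IsRoot l ∧ 1 < ‖l‖ ∧
      (finrank ℚ k : ℝ) ≤ 8224 * (r * (n : ℝ) ^ ((r + 2) * (2 * S.card + 2)) *
        c ^ (1 + 2 / (r : ℝ))) * (S.card * Real.log ‖l‖) := by
  refine gap_of2 k n S A (fun R => (finrank ℚ k : ℝ) ≤ 8224 * (r * (n : ℝ) ^
    ((r + 2) * (2 * S.card + 2)) * c ^ (1 + 2 / (r : ℝ))) * (S.card * Real.log R)) ?_ hA hout hnil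
  intro L _ _ _ x R hx0 hxi hxinv hroot hR hS hout' hin hdeg
  exact unit_cong k E L τ hJ0 hJ hτ hc hcJ S hS x hx0 hxi hxinv hroot hR hout' hin hdeg hr X hX hXo

end Pool.Agent.Run7.h816.IN
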