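import Mathlib
import Pool.Agent.Run7.h816.IN.In5

/-!
# The conjugates of an inertia automorphism
-/

set_option autoImplicit false

open Finset Module NumberField

namespace Pool.Agent.Run7.h816.IN

open Pool.Agent.H388SL Pool.Agent.H225R3.Marg Pool.Agent.Run7.h22 Pool.Agent.Run7.h816.MG

variable {E : Type} [Field E] [NumberField E]

/-- the conjugates of an automorphism -/
def conjs (τ : E ≃ₐ[ℚ] E) : Set (E ≃ₐ[ℚ] E) := Set.range fun g => g * τ * g⁻¹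

lemma conjs_pos (τ : E ≃ₐ[ℚ] E) : 1 ≤ (conjs τ).ncard :=
  (Set.ncard_pos (Set.toFinite _)).mpr ⟨_, 1, rfl⟩

/-- the conjugates of an inertia automorphism are inertia automorphisms at the conjugate primes -/
lemma conj_inertia [IsGalois ℚ E] {p : ℕ} (hp : p.Prime) {τ : E ≃ₐ[ℚ] E} {P : Ideal (𝓞 E)}
    (hP : P.IsPrime) (hpP : (p : 𝓞 E) ∈ P) (hτ : ∀ x : 𝓞 E, τ • x - x ∈ P) {Q : Ideal (𝓞 E)}
    (hQ : Q.IsPrime) (hpQ : (p : 𝓞 E) ∈ Q) :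
    ∃ τ' ∈ conjs τ, ∀ x : 𝓞 E, τ' • x - x ∈ Q := by
  have hinv : Algebra.IsInvariant ℤ (𝓞 E) (E ≃ₐ[ℚ] E) := inferInstance
  have hmax : (Ideal.span {(p : ℤ)}).IsMaximal := by
    have : Fact p.Prime := ⟨hp⟩
    exact Int.ideal_span_isMaximal_of_prime p
  have hund : ∀ I : Ideal (𝓞 E), I.IsPrime → (p : 𝓞 E) ∈ I → Ideal.span {(p : ℤ)} = I.under ℤ := by
    intro I hI hpI
    apply hmax.eq_of_le (Ideal.IsPrime.under ℤ I).ne_top
    rw [Ideal.span_singleton_le_iff_mem, Ideal.under_def, Ideal.mem_comap]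
    simpa using hpI
  obtain ⟨g, hg⟩ := Algebra.IsInvariant.exists_smul_of_under_eq ℤ (𝓞 E) (E ≃ₐ[ℚ] E) P Q
    ((hund P hP hpP).symm.trans (hund Q hQ hpQ))
  refine ⟨g * τ * g⁻¹, ⟨g, rfl⟩, fun x => ?_⟩
  rw [hg]
  have h1 := hτ (g⁻¹ • x)
  have h2 := Ideal.smul_mem_pointwise_smul g _ P h1
  rwa [smul_sub, smul_inv_smul, smul_smul, smul_smul] at h2

/-- the product of the primes above `p` at which a conjugate is an inertia automorphism -/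
lemma exists_J [IsGalois ℚ E] {p : ℕ} (hp : p.Prime) {e : ℕ}
    (hram : ∀ 𝔮 : Ideal (𝓞 E), 𝔮.IsPrime → (p : 𝓞 E) ∈ 𝔮 → (p : 𝓞 E) ∉ 𝔮 ^ (e + 1))
    {τ : E ≃ₐ[ℚ] E} {P : Ideal (𝓞 E)} (hP : P.IsPrime) (hpP : (p : 𝓞 E) ∈ P)
    (hτ : ∀ x : 𝓞 E, τ • x - x ∈ P) :
    ∃ τ' ∈ conjs τ, ∃ J : Ideal (𝓞 E), J ≠ ⊥ ∧ Squarefree J ∧ (∀ x : 𝓞 E, τ' • x - x ∈ J) ∧
      (finrank ℚ E : ℝ) * Real.log p ≤
        ((e * (conjs τ).ncard : ℕ) : ℝ) * Real.log (Ideal.absNorm J) := by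
  classical
  have hex : ∀ 𝔓 : Ideal (𝓞 E), ∃ τ' : E ≃ₐ[ℚ] E, 𝔓.IsPrime → (p : 𝓞 E) ∈ 𝔓 →
      τ' ∈ conjs τ ∧ ∀ x : 𝓞 E, τ' • x - x ∈ 𝔓 := by
    intro 𝔓
    by_cases h : 𝔓.IsPrime ∧ (p : 𝓞 E) ∈ 𝔓
    · obtain ⟨τ', h1, h2⟩ := conj_inertia hp hP hpP hτ h.1 h.2
      exact ⟨τ', fun _ _ => ⟨h1, h2⟩⟩
    · exact ⟨1, fun h1 h2 => absurd ⟨h1, h2⟩ h⟩
  choose fr hfr using hex
  set V : Finset (E ≃ₐ[ℚ] E) := (Set.toFinite (conjs τ)).toFinset with hV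
  have hVk : V.card ≤ (conjs τ).ncard := by
    rw [hV, ← Set.ncard_eq_toFinset_card _ (Set.toFinite (conjs τ))]
  obtain ⟨τ', Φ, hΦ, hF, hN⟩ := exists_class' hp fr V hVk (fun 𝔓 h1 h2 => by
    rw [hV, Set.Finite.mem_toFinset]
    exact (hfr 𝔓 h1 h2).1)
  obtain ⟨𝔓₀, h𝔓₀⟩ := hΦ
  have hτ' : τ' ∈ conjs τ := by
    obtain ⟨h1, h2, -, h3⟩ := hF 𝔓₀ h𝔓₀
    rw [← h3]
    exact (hfr 𝔓₀ h1 h2).1
  have hcop : ∀ 𝔓 ∈ Φ, ∀ 𝔔 ∈ Φ, 𝔓 ≠ 𝔔 → IsCoprime 𝔓 𝔔 := by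
    intro 𝔓 h𝔓 𝔔 h𝔔 hne
    have h1 : 𝔓.IsMaximal := (hF 𝔓 h𝔓).1.isMaximal (hF 𝔓 h𝔓).2.2.1
    have h2 : 𝔔.IsMaximal := (hF 𝔔 h𝔔).1.isMaximal (hF 𝔔 h𝔔).2.2.1
    exact Ideal.isCoprime_iff_sup_eq.mpr (h1.coprime_of_ne h2 hne)
  refine ⟨τ', hτ', ∏ 𝔓 ∈ Φ, 𝔓, ?_, ?_, ?_, ?_⟩
  · exact Finset.prod_ne_zero_iff.mpr fun 𝔓 h => (hF 𝔓 h).2.2.1
  · apply Finset.squarefree_prod_of_pairwise_isCoprime
    · intro 𝔓 h𝔓 𝔔 h𝔔 hne
      exact (hcop 𝔓 h𝔓 𝔔 h𝔔 hne).isRelPrime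
    · intro 𝔓 h𝔓
      exact (Ideal.prime_of_isPrime (hF 𝔓 h𝔓).2.2.1 (hF 𝔓 h𝔓).1).squarefree
  · intro x
    rw [← Ideal.dvd_span_singleton]
    apply Finset.prod_dvd_of_coprime
    · intro 𝔓 h𝔓 𝔔 h𝔔 hne
      exact hcop 𝔓 h𝔓 𝔔 h𝔔 hne
    · intro 𝔓 h𝔓
      rw [Ideal.dvd_span_singleton]
      obtain ⟨h1, h2, -, h3⟩ := hF 𝔓 h𝔓
      rw [← h3]
      exact (hfr 𝔓 h1 h2).2 x
  · have hlog : Real.log (Ideal.absNorm (∏ 𝔓 ∈ Φ, 𝔓)) = ∑ 𝔓 ∈ Φ, Real.log (Ideal.absNorm 𝔓) := by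
      rw [map_prod, Nat.cast_prod, Real.log_prod]
      intro 𝔓 h𝔓
      exact_mod_cast Ideal.absNorm_eq_zero_iff.not.mpr (hF 𝔓 h𝔓).2.2.1
    rw [hlog]
    refine hN.trans ?_
    push_cast
    rw [mul_comm (e : ℝ), mul_assoc]
    apply mul_le_mul_of_nonneg_left _ (Nat.cast_nonneg _)
    rw [Finset.mul_sum]
    apply Finset.sum_le_sum
    intro 𝔓 h𝔓
    apply mul_le_mul_of_nonneg_right _ (Real.log_natCast_nonneg _)
    have h1 : mult p 𝔓 ≤ e := by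
      by_contra hcon
      push Not at hcon
      exact hram 𝔓 (hF 𝔓 h𝔓).1 (hF 𝔓 h𝔓).2.1
        (Ideal.pow_le_pow_right hcon (mem_pow_mult hp.ne_zero 𝔓))
    exact_mod_cast h1

section count

variable {k : Type} [Field k] [NumberField k]

/-- the embeddings with more than `s` images under the powers of `τ` -/
def longOrb (s : ℕ) (τ : E ≃ₐ[ℚ] E) : Set (k →+* E) := {κ | s < orbLen τ κ}

lemma finite_emb : Finite (k →+* E) := by
  have h1 : Finite (k →ₐ[ℚ] E) := inferInstance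
  exact Finite.of_injective (fun f : k →+* E => (f.toRatAlgHom : k →ₐ[ℚ] E)) (by
    intro f g h
    ext x
    exact AlgHom.congr_fun h x)

lemma orbLen_conj (g τ : E ≃ₐ[ℚ] E) (κ : k →+* E) :
    orbLen (g * τ * g⁻¹) (((g : E ≃ₐ[ℚ] E) : E →+* E).comp κ) = orbLen τ κ := by
  unfold orbLen
  have h1 : (Set.range fun i : ℕ => (((g * τ * g⁻¹) ^ i : E ≃ₐ[ℚ] E) : E →+* E).comp
      (((g : E ≃ₐ[ℚ] E) : E →+* E).comp κ)) =
      (fun κ' : k →+* E => ((g : E ≃ₐ[ℚ] E) : E →+* E).comp κ') ''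
        (Set.range fun i : ℕ => ((τ ^ i : E ≃ₐ[ℚ] E) : E →+* E).comp κ) := by
    rw [← Set.range_comp]
    congr 1
    funext i
    ext y
    show ((g * τ * g⁻¹) ^ i) (g (κ y)) = g ((τ ^ i) (κ y))
    rw [conj_pow, ← AlgEquiv.mul_apply, mul_assoc, inv_mul_cancel, mul_one]
    rfl
  rw [h1]
  apply Set.ncard_image_of_injective
  intro κ₁ κ₂ h
  ext y
  exact g.injective (RingHom.congr_fun h y)

lemma ncard_longOrb_conj (s : ℕ) {τ τ' : E ≃ₐ[ℚ] E} (h : τ' ∈ conjs τ) :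
    (longOrb (k := k) s τ').ncard = (longOrb (k := k) s τ).ncard := by
  obtain ⟨g, rfl⟩ := h
  have h1 : longOrb (k := k) s (g * τ * g⁻¹) =
      (fun κ' : k →+* E => ((g : E ≃ₐ[ℚ] E) : E →+* E).comp κ') '' longOrb (k := k) s τ := by
    ext κ
    constructor
    · intro hκ
      have h2 : κ = ((g : E ≃ₐ[ℚ] E) : E →+* E).comp ((((g⁻¹ : E ≃ₐ[ℚ] E)) : E →+* E).comp κ) := by
        ext y
        show κ y = g (g⁻¹ (κ y))
        rw [← AlgEquiv.mul_apply, mul_inv_cancel]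
        rfl
      refine ⟨(((g⁻¹ : E ≃ₐ[ℚ] E)) : E →+* E).comp κ, ?_, h2.symm⟩
      show s < orbLen τ _
      rw [← orbLen_conj g, ← h2]
      exact hκ
    · rintro ⟨κ', hκ', rfl⟩
      show s < orbLen _ _
      rw [orbLen_conj]
      exact hκ'
  rw [h1]
  apply Set.ncard_image_of_injective
  intro κ₁ κ₂ h
  ext y
  exact g.injective (RingHom.congr_fun h y)

/-- the number of the embeddings in a Galois field -/
lemma card_emb [IsGalois ℚ E] [Algebra k E] : Nat.card (k →+* E) = finrank ℚ k := by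
  have hst : IsScalarTower ℚ k E := IsScalarTower.of_algebraMap_eq' (RingHom.ext_rat _ _)
  have h1 : Fintype.card (k →ₐ[ℚ] E) = finrank ℚ k := by
    apply AlgHom.card_of_splits
    intro x
    have h2 : minpoly ℚ (algebraMap k E x) = minpoly ℚ x :=
      minpoly.algebraMap_eq (algebraMap k E).injective x
    rw [← h2]
    exact Normal.splits inferInstance _
  rw [← h1, ← Nat.card_eq_fintype_card]
  exact Nat.card_congr (RingHom.equivRatAlgHom k E)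

/-- **The number of the embeddings with long orbits.** -/
lemma count_longOrb [IsGalois ℚ E] [Algebra k E] (s : ℕ) (τ : E ≃ₐ[ℚ] E) (κ₀ : k →+* E)
    (h : s < orbLen τ κ₀) :
    finrank ℚ k ≤ (conjs τ).ncard * (longOrb (k := k) s τ).ncard := by
  classical
  have hfin : Finite (k →+* E) := finite_emb
  set V : Finset (E ≃ₐ[ℚ] E) := (Set.toFinite (conjs τ)).toFinset with hV
  have hVk : V.card = (conjs τ).ncard := by
    rw [hV, ← Set.ncard_eq_toFinset_card _ (Set.toFinite (conjs τ))]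
  have h1 : (Set.univ : Set (k →+* E)) ⊆ ⋃ τ' ∈ V, longOrb (k := k) s τ' := by
    intro κ _
    obtain ⟨g, hg⟩ := exists_aut κ₀ κ
    refine Set.mem_biUnion (x := g * τ * g⁻¹) ?_ ?_
    · rw [hV, Finset.mem_coe, Set.Finite.mem_toFinset]
      exact ⟨g, rfl⟩
    · show s < orbLen _ κ
      have h2 : κ = ((g : E ≃ₐ[ℚ] E) : E →+* E).comp κ₀ := by
        ext y
        exact (hg y).symm
      rw [h2, orbLen_conj]
      exact h
  calc finrank ℚ k = (Set.univ : Set (k →+* E)).ncard := by rw [Set.ncard_univ, card_emb]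
    _ ≤ (⋃ τ' ∈ V, longOrb (k := k) s τ').ncard := Set.ncard_le_ncard h1 (Set.toFinite _)
    _ ≤ ∑ τ' ∈ V, (longOrb (k := k) s τ').ncard := by
        exact Finset.set_ncard_biUnion_le V _
    _ = ∑ _τ' ∈ V, (longOrb (k := k) s τ).ncard := by
        refine Finset.sum_congr rfl fun τ' hτ' => ncard_longOrb_conj s ?_
        rw [hV, Set.Finite.mem_toFinset] at hτ'
        exact hτ'
    _ = _ := by rw [Finset.sum_const, smul_eq_mul, hVk]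

end count

end Pool.Agent.Run7.h816.IN
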