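import Mathlib
import Pool.Agent.Run7.h816.IN.In6
import Pool.Agent.Run7.h22.Main

/-!
# The gap for fields with an inertia automorphism with few conjugates
-/

set_option autoImplicit false

open Finset Module NumberField

namespace Pool.Agent.Run7.h816.IN

open Pool.Agent.H388SL Pool.Agent.H225R3.Marg Pool.Agent.Run7.h22 Pool.Agent.Run7.h816.MG

/-- **The gap for fields with an inertia automorphism with few conjugates.** Let `k` be a number field
of degree `m` and `E ⊇ k` a number field which is Galois over `ℚ`, `p` a prime number with ramification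
indices at most `e` in `E` and `τ` an inertia automorphism of `E` above `p`, with `u` conjugates, such
that some embedding of `k` in `E` has more than `|S|` images under the powers of `τ`. Then
`m ≤ C (e u) ^ (1 + ε) log |l|`, where `C` depends only on `ε`, `n` and a bound `s` of `|S|`. -/
theorem gap_inertia (ε : ℝ) (hε : 0 < ε) (n s : ℕ) : ∃ C : ℝ, 0 < C ∧
    ∀ (k E : Type) [Field k] [NumberField k] [Field E] [NumberField E] [IsGalois ℚ E] [Algebra k E]
      (p e : ℕ), p.Prime → 1 ≤ e →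
      (∀ 𝔮 : Ideal (𝓞 E), 𝔮.IsPrime → (p : 𝓞 E) ∈ 𝔮 → (p : 𝓞 E) ∉ 𝔮 ^ (e + 1)) →
      ∀ (τ : E ≃ₐ[ℚ] E) (P : Ideal (𝓞 E)), P.IsPrime → (p : 𝓞 E) ∈ P → (∀ x : 𝓞 E, τ • x - x ∈ P) →
      ∀ (S : Finset (k →+* ℂ)) (A : Matrix (Fin n) (Fin n) (𝓞 k)), S.card ≤ s →
      (∃ κ : k →+* E, S.card < orbLen τ κ) → IsUnit A →
      (∀ σ : k →+* ℂ, σ ∉ S → ∀ l : ℂ, ((emb σ).mapMatrix A).charpoly.IsRoot l → ‖l‖ = 1) →
      (∀ N : ℕ, 0 < N → ¬ IsNilpotent (A ^ N - 1)) →
      ∃ σ ∈ S, ∃ l : ℂ, ((emb σ).mapMatrix A).charpoly.IsRoot l ∧ 1 < ‖l‖ ∧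
        (finrank ℚ k : ℝ) ≤ C * ((e * (conjs τ).ncard : ℕ) : ℝ) ^ (1 + ε) * Real.log ‖l‖ := by
  obtain ⟨c0, hc0, hdob⟩ := dob
  set r : ℕ := ⌈2 / ε⌉₊ with hr
  have hr1 : 1 ≤ r := Nat.one_le_ceil_iff.mpr (by positivity)
  have hr2 : 2 / ε ≤ r := Nat.le_ceil _
  have hrR : (0:ℝ) < r := by exact_mod_cast hr1
  have hrε : 2 / (r : ℝ) ≤ ε := by
    rw [div_le_iff₀ hrR]
    rw [div_le_iff₀ hε] at hr2
    linarith
  set C₁ : ℝ := 8224 * (r * ((n : ℝ) + 1) ^ ((r + 2) * (2 * s + 2))) * s with hC₁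
  set C₂ : ℝ := (2 * s * r * (n * s)) / c0 * ((4 * n * s * r + 1) ^ ε / (ε / 3) ^ 3) with hC₂
  have hC₁0 : 0 ≤ C₁ := by positivity
  have hC₂0 : 0 ≤ C₂ := by positivity
  refine ⟨C₁ + C₂ + 1, by positivity, ?_⟩
  intro k E _ _ _ _ _ _ p e hp he hram τ P hP hpP hτ S A hSs ⟨κ₀, hκ₀⟩ hA hout hnil
  obtain ⟨τ', hτ', J, hJ0, hJ, hτJ, hJN⟩ := exists_J hp hram hP hpP hτ
  set u : ℕ := (conjs τ).ncard with hu
  have hu1 : 1 ≤ u := conjs_pos τ
  set w : ℝ := ((e * u : ℕ) : ℝ) with hw
  have hw1 : (1:ℝ) ≤ w := by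
    have h1 : 1 ≤ e * u := Nat.mul_pos he hu1
    rw [hw]
    exact_mod_cast h1
  have huw : (u : ℝ) ≤ w := by
    have h1 : u ≤ e * u := Nat.le_mul_of_pos_left _ he
    rw [hw]
    exact_mod_cast h1
  have hcJ : (finrank ℚ E : ℝ) * Real.log 2 ≤ w * Real.log (Ideal.absNorm J) := by
    refine le_trans ?_ hJN
    apply mul_le_mul_of_nonneg_left _ (Nat.cast_nonneg _)
    apply Real.log_le_log (by norm_num)
    exact_mod_cast hp.two_le
  have hcount := count_longOrb S.card τ κ₀ hκ₀
  rw [← ncard_longOrb_conj S.card hτ', ← hu] at hcount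
  refine gap_of2 k n S A (fun R => (finrank ℚ k : ℝ) ≤ (C₁ + C₂ + 1) * w ^ (1 + ε) * Real.log R)
    ?_ hA hout hnil
  intro L _ _ _ x R hx0 hxi hxinv hroot hR hS hout' hin hdeg
  have hlogR : 0 ≤ Real.log R := Real.log_nonneg hR
  have hSR : (S.card : ℝ) ≤ s := by exact_mod_cast hSs
  have hwp : 0 ≤ w ^ (1 + ε) := Real.rpow_nonneg (by linarith) _
  have hfin : Finite (k →+* E) := finite_emb
  rcases le_or_gt (2 * S.card * r * u) (finrank ℚ k) with hbig | hsmall
  · -- many embeddings with long orbits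
    set X : Finset (k →+* E) := (Set.toFinite (longOrb (k := k) S.card τ')).toFinset with hX
    have hXcard : X.card = (longOrb (k := k) S.card τ').ncard := by
      rw [hX, ← Set.ncard_eq_toFinset_card _ (Set.toFinite _)]
    have hXge : 2 * S.card * r ≤ X.card := by
      rw [hXcard]
      have h1 := hbig.trans hcount
      rw [mul_comm u] at h1
      exact Nat.le_of_mul_le_mul_right h1 hu1
    have h1 := unit_cong k E L τ' hJ0 hJ hτJ hw1 hcJ S hS x hx0 hxi hxinv hroot hR hout' hin hdeg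
      hr1 X hXge (fun κ hκ => by
        rw [hX, Set.Finite.mem_toFinset] at hκ
        exact hκ)
    have h2 : w ^ (1 + 2 / (r : ℝ)) ≤ w ^ (1 + ε) :=
      Real.rpow_le_rpow_of_exponent_le hw1 (by linarith)
    have h3 : (n : ℝ) ^ ((r + 2) * (2 * S.card + 2)) ≤ ((n : ℝ) + 1) ^ ((r + 2) * (2 * s + 2)) := by
      calc (n : ℝ) ^ ((r + 2) * (2 * S.card + 2)) ≤ ((n : ℝ) + 1) ^ ((r + 2) * (2 * S.card + 2)) :=
            pow_le_pow_left₀ (by positivity) (by linarith) _
        _ ≤ _ := by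
            apply pow_le_pow_right₀ (by linarith [(Nat.cast_nonneg n : (0:ℝ) ≤ n)])
            apply Nat.mul_le_mul_left
            omega
    calc (finrank ℚ k : ℝ) ≤ 8224 * (r * (n : ℝ) ^ ((r + 2) * (2 * S.card + 2)) *
          w ^ (1 + 2 / (r : ℝ))) * (S.card * Real.log R) := h1
      _ ≤ 8224 * (r * ((n : ℝ) + 1) ^ ((r + 2) * (2 * s + 2)) * w ^ (1 + ε)) * (s * Real.log R) := by
          have h4 : 0 ≤ w ^ (1 + 2 / (r : ℝ)) := Real.rpow_nonneg (by linarith) _
          gcongr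
      _ = C₁ * (w ^ (1 + ε) * Real.log R) := by rw [hC₁]; ring
      _ ≤ (C₁ + C₂ + 1) * (w ^ (1 + ε) * Real.log R) := by
          apply mul_le_mul_of_nonneg_right _ (mul_nonneg hwp hlogR)
          linarith
      _ = _ := by ring
  · -- small degree
    have hfdL : FiniteDimensional k L := Module.Finite.of_restrictScalars_finite ℚ k L
    have hm1 : (1:ℝ) ≤ finrank ℚ k := by exact_mod_cast (finrank_pos : 0 < finrank ℚ k)
    have hkL1 : (1:ℝ) ≤ finrank k L := by exact_mod_cast (finrank_pos : 0 < finrank k L)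
    have hn1 : 1 ≤ n := le_trans finrank_pos hdeg
    have hnR : (1:ℝ) ≤ n := by exact_mod_cast hn1
    have hdegR : (finrank k L : ℝ) ≤ n := by exact_mod_cast hdeg
    have hLdeg : (finrank ℚ L : ℝ) = finrank ℚ k * finrank k L := by
      rw [← Module.finrank_mul_finrank ℚ k L]
      push_cast
      ring
    have hd : (finrank ℚ (IntermediateField.adjoin ℚ {x}) : ℝ) ≤ finrank ℚ k * n := by
      have h1 : finrank ℚ (IntermediateField.adjoin ℚ {x}) ≤ finrank ℚ L :=
        Nat.le_of_dvd finrank_pos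
          ⟨_, (finrank_mul_finrank ℚ (IntermediateField.adjoin ℚ {x}) L).symm⟩
      calc (finrank ℚ (IntermediateField.adjoin ℚ {x}) : ℝ) ≤ finrank ℚ L := by exact_mod_cast h1
        _ = finrank ℚ k * finrank k L := hLdeg
        _ ≤ _ := by gcongr
    have h1 := case_small hc0 hdob hxi hx0 hroot hd
    have h2 := lam_few S x hR (fun τ' h => (hout' τ' h).le) hin
    have hsm : (finrank ℚ k : ℝ) ≤ 2 * s * r * w := by
      calc (finrank ℚ k : ℝ) ≤ ((2 * S.card * r * u : ℕ) : ℝ) := by exact_mod_cast hsmall.le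
        _ = 2 * S.card * r * u := by push_cast; ring
        _ ≤ 2 * s * r * w := by gcongr
    set y : ℝ := 2 * (finrank ℚ k * n) with hy
    have hy1 : 1 ≤ y := by nlinarith
    have hlogy : Real.log y ^ 3 ≤ (4 * n * s * r + 1) ^ ε / (ε / 3) ^ 3 * w ^ ε := by
      have h3 : Real.log y ≤ y ^ (ε / 3) / (ε / 3) := Real.log_le_rpow_div (by linarith) (by positivity)
      have h4 : 0 ≤ Real.log y := Real.log_nonneg hy1
      have h5 := pow_le_pow_left₀ h4 h3 3
      have h6 : (y ^ (ε / 3)) ^ 3 = y ^ ε := by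
        rw [← Real.rpow_natCast, ← Real.rpow_mul (by linarith)]
        congr 1
        push_cast
        ring
      rw [div_pow, h6] at h5
      have h7 : y ≤ (4 * n * s * r + 1) * w := by
        have h8 : y ≤ 2 * ((2 * s * r * w) * n) := by
          rw [hy]
          exact mul_le_mul_of_nonneg_left (mul_le_mul_of_nonneg_right hsm (by linarith)) (by norm_num)
        have h8' : 2 * ((2 * s * r * w) * n) = (4 * n * s * r) * w := by ring
        rw [h8'] at h8
        linarith
      have h9 : y ^ ε ≤ ((4 * n * s * r + 1) * w) ^ ε := Real.rpow_le_rpow (by linarith) h7 hε.le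
      have h9' : ((4 * n * s * r + 1) * w) ^ ε = (4 * n * s * r + 1 : ℝ) ^ ε * w ^ ε :=
        Real.mul_rpow (by positivity) (by linarith)
      rw [h9'] at h9
      calc Real.log y ^ 3 ≤ y ^ ε / (ε / 3) ^ 3 := h5
        _ ≤ ((4 * n * s * r + 1 : ℝ) ^ ε * w ^ ε) / (ε / 3) ^ 3 :=
            div_le_div_of_nonneg_right h9 (by positivity)
        _ = _ := by ring
    -- cancel the degrees
    have h10 : c0 ≤ n * Real.log y ^ 3 * (s * Real.log R) := by
      have h11 : c0 * (finrank ℚ k * finrank k L) ≤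
          (n * Real.log y ^ 3 * (s * Real.log R)) * (finrank ℚ k * finrank k L) := by
        calc c0 * (finrank ℚ k * finrank k L) = c0 * finrank ℚ L := by rw [hLdeg]
          _ ≤ finrank ℚ k * n * Real.log y ^ 3 * lam x := h1
          _ ≤ finrank ℚ k * n * Real.log y ^ 3 * (((S.card * finrank k L : ℕ) : ℝ) * Real.log R) := by
              have h12 : 0 ≤ Real.log y := Real.log_nonneg hy1
              gcongr
          _ = (n * Real.log y ^ 3 * (S.card * Real.log R)) * (finrank ℚ k * finrank k L) := by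
              push_cast
              ring
          _ ≤ _ := by
              have h12 : 0 ≤ Real.log y := Real.log_nonneg hy1
              gcongr
      exact le_of_mul_le_mul_right h11 (by positivity)
    have hsplit : w ^ (1 + ε) = w * w ^ ε := by
      rw [Real.rpow_add (by linarith), Real.rpow_one]
    calc (finrank ℚ k : ℝ) = (finrank ℚ k / c0) * c0 := by field_simp
      _ ≤ ((2 * s * r * w) / c0) * (n * Real.log y ^ 3 * (s * Real.log R)) := by
          apply mul_le_mul _ h10 hc0.le (by positivity)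
          gcongr
      _ ≤ ((2 * s * r * w) / c0) * (n * ((4 * n * s * r + 1) ^ ε / (ε / 3) ^ 3 * w ^ ε) *
          (s * Real.log R)) := by gcongr
      _ = C₂ * (w ^ (1 + ε) * Real.log R) := by rw [hC₂, hsplit]; ring
      _ ≤ (C₁ + C₂ + 1) * (w ^ (1 + ε) * Real.log R) := by
          apply mul_le_mul_of_nonneg_right _ (mul_nonneg hwp hlogR)
          linarith
      _ = _ := by ring

end Pool.Agent.Run7.h816.IN
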